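import Pool.Agent.H13.L.Rb67.E8helper54.SG.Disp

/-!
The limit argument: groups with a universal property of a multiple HNN extension.
-/

set_option autoImplicit false

namespace Pool.Agent.E8helper54.SG

open Finset Equiv Filter Topology Pool.Agent.H21R2

universe u v w

/-! ### Exact actions of free groups -/

section rep

variable {A : Type u} [Group A] {Λ : Type u} {l : Filter Λ} {n : Λ → ℕ}
  {ψ : ∀ j, A → Perm (Fin (n j))}

/-- the homomorphism to the limit given by a sofic representation -/
noncomputable def toLim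
    (hmul : ∀ a b, Tendsto (fun j => fr fun y => ψ j (a * b) y ≠ ψ j a (ψ j b y)) l (𝓝 0)) :
    A →* Lim l (fun j => Fin (n j)) :=
  MonoidHom.mk' (fun a => cls l _ fun j => ψ j a) (by
    intro a b
    rw [← map_mul, cls_eq_iff]
    exact hmul a b)

/-- an exact homomorphism of a free group, which approximates the given representation -/
noncomputable def ex {C : Type v} [Group C] [IsFreeGroup C] (ψ : ∀ j, A → Perm (Fin (n j)))
    (φ : C →* A) (j : Λ) : C →* Perm (Fin (n j)) :=
  IsFreeGroup.lift fun x => ψ j (φ (IsFreeGroup.of x))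

theorem ex_tendsto {C : Type v} [Group C] [IsFreeGroup C]
    (hmul : ∀ a b, Tendsto (fun j => fr fun y => ψ j (a * b) y ≠ ψ j a (ψ j b y)) l (𝓝 0))
    (φ : C →* A) (d : C) :
    Tendsto (fun j => fr fun y => ex ψ φ j d y ≠ ψ j (φ d) y) l (𝓝 0) := by
  let f : C →* Lim l (fun j => Fin (n j)) := (cls l _).comp (MonoidHom.pi fun j => ex ψ φ j)
  let g : C →* Lim l (fun j => Fin (n j)) := (toLim hmul).comp φ
  have hfg : f = g := by
    apply IsFreeGroup.ext_hom
    intro x
    change cls l _ (fun j => ex ψ φ j (IsFreeGroup.of x)) =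
      cls l _ (fun j => ψ j (φ (IsFreeGroup.of x)))
    congr 1
    funext j
    exact IsFreeGroup.lift_of _ _
  have h1 := DFunLike.congr_fun hfg d
  exact (cls_eq_iff (l := l) (fun j => ex ψ φ j d) (fun j => ψ j (φ d))).1 h1

theorem eq_tendsto
    (hmul : ∀ a b, Tendsto (fun j => fr fun y => ψ j (a * b) y ≠ ψ j a (ψ j b y)) l (𝓝 0))
    (hfree : ∀ a, a ≠ 1 → Tendsto (fun j => fr fun y => ψ j a y = y) l (𝓝 0))
    {a b : A} (hab : a ≠ b) : Tendsto (fun j => fr fun y => ψ j a y = ψ j b y) l (𝓝 0) := by
  have h1 := hmul b (b⁻¹ * a)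
  have h2 := hfree (b⁻¹ * a) (fun h => hab (by rw [inv_mul_eq_one] at h; exact h.symm))
  have h3 := h1.add h2
  rw [add_zero] at h3
  refine squeeze_zero (fun j => fr_nonneg _) (fun j => ?_) h3
  refine le_trans (fr_mono ?_) (fr_or_le _ _)
  intro y hy
  by_contra hc
  push Not at hc
  rw [mul_inv_cancel_left] at hc
  apply hc.2
  apply (ψ j b).injective
  rw [← hc.1, hy]

end rep

/-! ### Words in a group -/

section words

variable {A : Type u} [Group A] {I : Type u} {G : Type w} [Group G]

/-- the value of a word in a group -/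
def evalG (of : A →* G) (t : I → G) : List (I × Bool × A) → G
  | [] => 1
  | (i, e, a) :: w => (if e then t i else (t i)⁻¹) * of a * evalG of t w

/-- every word can be reduced -/
theorem exists_reduced {D : I → Type v} (al be : ∀ i, D i → A) (of : A →* G) (t : I → G)
    (hrel : ∀ i d, t i * of (al i d) = of (be i d) * t i)
    (S : I → Bool → Set A) (hSt : ∀ i, S i true = Set.range (al i))
    (hSf : ∀ i, S i false = Set.range (be i)) (w : List (I × Bool × A)) :
    ∃ (a : A) (w' : List (I × Bool × A)), Red S w' ∧ evalG of t w = of a * evalG of t w' := by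
  induction w with
  | nil => exact ⟨1, [], List.isChain_nil, by rw [map_one, one_mul]⟩
  | cons x w ih =>
    rcases x with ⟨i, e, a⟩
    obtain ⟨a₀, w', hw', hev⟩ := ih
    have h1 : evalG of t ((i, e, a) :: w) = evalG of t ((i, e, a * a₀) :: w') := by
      unfold evalG
      rw [hev, map_mul]
      simp only [mul_assoc]
    by_cases hred : Red S ((i, e, a * a₀) :: w')
    · exact ⟨1, _, hred, by rw [h1, map_one, one_mul]⟩
    · cases w' with
      | nil => exact absurd (List.isChain_singleton _) hred
      | cons y w'' =>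
        rcases y with ⟨j, e', a'⟩
        have h2 : ¬ (i = j → e ≠ e' → a * a₀ ∉ S i e) := by
          intro h
          apply hred
          unfold Red at hw' ⊢
          rw [List.isChain_cons_cons]
          exact ⟨h, hw'⟩
        push Not at h2
        obtain ⟨rfl, hne, hmem⟩ := h2
        have hw'' : Red S w'' := List.IsChain.of_cons hw'
        rw [h1]
        cases e with
        | true =>
          have he' : e' = false := by
            cases e' with
            | true => exact absurd rfl hne
            | false => rfl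
          subst he'
          rw [hSt] at hmem
          obtain ⟨d, hd⟩ := hmem
          refine ⟨be i d * a', w'', hw'', ?_⟩
          conv_lhs => rw [evalG, evalG]
          simp only [if_true, Bool.false_eq_true, if_false]
          rw [← hd, hrel, map_mul]
          group
        | false =>
          have he' : e' = true := by
            cases e' with
            | true => rfl
            | false => exact absurd rfl hne
          subst he'
          rw [hSf] at hmem
          obtain ⟨d, hd⟩ := hmem
          refine ⟨al i d * a', w'', hw'', ?_⟩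
          conv_lhs => rw [evalG, evalG]
          simp only [if_true, Bool.false_eq_true, if_false]
          rw [← hd, map_mul]
          have h3 : (t i)⁻¹ * of (be i d) * (t i * of a' * evalG of t w'') =
              (t i)⁻¹ * (of (be i d) * t i) * of a' * evalG of t w'' := by group
          rw [h3, ← hrel]
          group

theorem exists_word (of : A →* G) (t : I → G)
    (hgen : Subgroup.closure (Set.range of ∪ Set.range t) = ⊤) (g : G) :
    ∃ (a : A) (w : List (I × Bool × A)), g = of a * evalG of t w := by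
  have hg : g ∈ Subgroup.closure (Set.range of ∪ Set.range t) := by rw [hgen]; trivial
  induction hg using Subgroup.closure_induction_left with
  | one => exact ⟨1, [], by rw [map_one, one_mul]; rfl⟩
  | mul_left x hx y _ ih =>
    obtain ⟨a, w, rfl⟩ := ih
    rcases hx with ⟨b, rfl⟩ | ⟨i, rfl⟩
    · exact ⟨b * a, w, by rw [map_mul, mul_assoc]⟩
    · refine ⟨1, (i, true, a) :: w, ?_⟩
      conv_rhs => rw [evalG]
      simp only [if_true]
      rw [map_one, one_mul, mul_assoc]
  | inv_mul_cancel x hx y _ ih =>
    obtain ⟨a, w, rfl⟩ := ih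
    rcases hx with ⟨b, rfl⟩ | ⟨i, rfl⟩
    · exact ⟨b⁻¹ * a, w, by rw [map_mul, map_inv, mul_assoc]⟩
    · refine ⟨1, (i, false, a) :: w, ?_⟩
      conv_rhs => rw [evalG]
      simp only [Bool.false_eq_true, if_false]
      rw [map_one, one_mul, mul_assoc]

end words

/-! ### The limit -/

/-- the data of a multiple HNN extension with a homomorphism to a free group which is injective on
the edge groups; the edge groups are the subgroups `D i` of the free group -/
structure Data (A : Type u) [Group A] (β I : Type u) where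
  /-- the edge groups -/
  D : I → Subgroup (FreeGroup β)
  /-- the first embedding -/
  al : ∀ i, D i →* A
  /-- the second embedding -/
  be : ∀ i, D i →* A
  /-- the homomorphism to the free group -/
  fA : A →* FreeGroup β
  /-- the images of the stable letters -/
  τ : I → FreeGroup β
  hal : ∀ i d, fA (al i d) = d
  hbe : ∀ i d, fA (be i d) = τ i * d * (τ i)⁻¹

variable {A : Type u} [Group A] {β I : Type u} (X : Data A β I)

/-- the images of the edge groups -/
def Data.S (i : I) (e : Bool) : Set A := if e then Set.range (X.al i) else Set.range (X.be i)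

section limit

variable {Λ : Type u} {l : Filter Λ} {n : Λ → ℕ} (ψ : ∀ j, A → Perm (Fin (n j))) (m : ℕ)

/-- the level -/
noncomputable def lev (k : Λ × Finset (Idx X.D)) : Lev X.D (n k.1) where
  W := k.2
  p i := ex ψ (X.al i) k.1
  r i := ex ψ (X.be i) k.1

/-- the finite models -/
abbrev OmL (k : Λ × Finset (Idx X.D)) : Type u := Om m (lev X ψ k)

theorem badSum_tendsto
    (hmul : ∀ a b, Tendsto (fun j => fr fun y => ψ j (a * b) y ≠ ψ j a (ψ j b y)) l (𝓝 0))
    (hfree : ∀ a, a ≠ 1 → Tendsto (fun j => fr fun y => ψ j a y = y) l (𝓝 0))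
    (w : List (I × Bool × A)) :
    Tendsto (fun k : Λ × Finset (Idx X.D) => badSum (lev X ψ k) X.fA X.τ (ψ k.1) X.S w)
      (l ×ˢ atTop) (𝓝 0) := by
  classical
  have key : ∀ {C : Type u} [Group C] [IsFreeGroup C] (φ : C →* A) (d : C) (a : A), φ d ≠ a →
      Tendsto (fun k : Λ × Finset (Idx X.D) => fr fun v => ex ψ φ k.1 d v = ψ k.1 a v)
        (l ×ˢ atTop) (𝓝 0) := by
    intro C _ _ φ d a hda
    have h1 := (ex_tendsto hmul φ d).add (eq_tendsto hmul hfree hda)
    rw [add_zero] at h1
    refine squeeze_zero (fun k => fr_nonneg _) (fun k => ?_) (h1.comp tendsto_fst)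
    refine le_trans (fr_mono ?_) (fr_or_le _ _)
    intro v hv
    by_contra hc
    push Not at hc
    exact hc.2 (hc.1.symm.trans hv)
  induction w with
  | nil =>
    unfold badSum
    exact tendsto_const_nhds
  | cons x w ih =>
    rcases x with ⟨i, e, a⟩
    unfold badSum
    have hz : Tendsto (fun k : Λ × Finset (Idx X.D) =>
        (if a ∈ X.S i e then 0 else fr (Bad (lev X ψ k) X.fA X.τ (ψ k.1) i e a)))
        (l ×ˢ atTop) (𝓝 0) := by
      split_ifs with ha
      · exact tendsto_const_nhds
      · cases e with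
        | true =>
          unfold Bad
          simp only [if_true]
          by_cases hd : ∃ d : X.D i, X.fA a = d
          · obtain ⟨d, hd⟩ := hd
            refine squeeze_zero (fun k => fr_nonneg _) (fun k => fr_mono ?_)
              (key (X.al i) d a fun h => ha ?_)
            · rintro v ⟨d', hd', h⟩
              have : d' = d := Subtype.ext (hd'.symm.trans hd)
              rw [this] at h
              exact h
            · unfold Data.S
              simp only [if_true]
              exact ⟨d, h⟩
          · refine squeeze_zero (fun k => fr_nonneg _) (fun k => le_trans (fr_mono ?_)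
              (fr_false (Y := Fin (n k.1))).le) tendsto_const_nhds
            rintro v ⟨d', hd', _⟩
            exact hd ⟨d', hd'⟩
        | false =>
          unfold Bad
          simp only [Bool.false_eq_true, if_false]
          by_cases hd : ∃ d : X.D i, X.fA a = X.τ i * d * (X.τ i)⁻¹
          · obtain ⟨d, hd⟩ := hd
            refine squeeze_zero (fun k => fr_nonneg _) (fun k => fr_mono ?_)
              (key (X.be i) d a fun h => ha ?_)
            · rintro v ⟨d', hd', h⟩
              have : d' = d := by
                apply Subtype.ext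
                have h5 := hd'.symm.trans hd
                rw [mul_left_inj, mul_right_inj] at h5
                exact h5
              rw [this] at h
              exact h
            · unfold Data.S
              simp only [Bool.false_eq_true, if_false]
              exact ⟨d, h⟩
          · refine squeeze_zero (fun k => fr_nonneg _) (fun k => le_trans (fr_mono ?_)
              (fr_false (Y := Fin (n k.1))).le) tendsto_const_nhds
            rintro v ⟨d', hd', _⟩
            exact hd ⟨d', hd'⟩
    have h2 := hz.add ih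
    rw [add_zero] at h2
    exact h2

variable (hmul : ∀ a b, Tendsto (fun j => fr fun y => ψ j (a * b) y ≠ ψ j a (ψ j b y)) l (𝓝 0))

/-- the class of an element of the base group in the limit of the models -/
noncomputable def clA (hm : 0 < m) : A →* Lim (l ×ˢ atTop) (OmL X ψ m) :=
  MonoidHom.mk' (fun a => cls (l ×ˢ atTop) (OmL X ψ m)
      fun k => PA m (lev X ψ k) X.fA (ψ k.1) a) (by
    intro a b
    rw [← map_mul, cls_eq_iff]
    refine squeeze_zero (fun k => fr_nonneg _) (fun k => ?_) ((hmul a b).comp tendsto_fst)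
    have : Nonempty (Fin m) := ⟨⟨0, hm⟩⟩
    let e' : OmL X ψ m k ≃ Fin (n k.1) × (((lev X ψ k).W → Y (n k.1) m) × Fin m) :=
      { toFun := fun ω => (ω.2.1, (ω.1, ω.2.2))
        invFun := fun t => (t.2.1, (t.1, t.2.2))
        left_inv := fun _ => rfl
        right_inv := fun _ => rfl }
    have : Nonempty (((lev X ψ k).W → Y (n k.1) m) × Fin m) :=
      ⟨(fun _ => (1, fun _ => 1), ⟨0, hm⟩)⟩
    refine le_trans (fr_mono ?_) (fr_prod e' fun y => ψ k.1 (a * b) y ≠ ψ k.1 a (ψ k.1 b y)).le
    intro ω hω
    by_contra hc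
    apply hω
    rw [Pi.mul_apply, Perm.mul_apply, PA_apply, PA_apply, PA_apply, map_mul, map_mul,
      Perm.mul_apply]
    refine Prod.ext rfl (Prod.ext hc rfl))

/-- the class of a stable letter -/
noncomputable def clT (l : Filter Λ) (i : I) : Lim (l ×ˢ atTop) (OmL X ψ m) :=
  cls (l ×ˢ atTop) (OmL X ψ m) fun k => PT m (lev X ψ k) X.τ i

theorem clT_clA (hm : 0 < m) (i : I) (d : X.D i) :
    clT X ψ m l i * clA X ψ m hmul hm (X.al i d) =
      clA X ψ m hmul hm (X.be i d) * clT X ψ m l i := by
  change cls _ _ _ * cls _ _ _ = cls _ _ _ * cls _ _ _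
  rw [← map_mul, ← map_mul, cls_eq_iff]
  obtain ⟨N, hN⟩ := relation (D := X.D) X.fA X.τ i d (X.al i d) (X.be i d) (X.hal i d) (X.hbe i d)
  have h1 := (ex_tendsto hmul (X.al i) d).add (ex_tendsto hmul (X.be i) d)
  rw [add_zero] at h1
  refine squeeze_zero' (Eventually.of_forall fun k => fr_nonneg _) ?_ (h1.comp tendsto_fst)
  have hev : ∀ᶠ k : Λ × Finset (Idx X.D) in l ×ˢ atTop, N ⊆ k.2 :=
    (eventually_ge_atTop N).prod_inr l
  filter_upwards [hev] with k hk
  have : Nonempty (Fin m) := ⟨⟨0, hm⟩⟩
  let e' : OmL X ψ m k ≃ Fin (n k.1) × (((lev X ψ k).W → Y (n k.1) m) × Fin m) :=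
    { toFun := fun ω => (ω.2.1, (ω.1, ω.2.2))
      invFun := fun t => (t.2.1, (t.1, t.2.2))
      left_inv := fun _ => rfl
      right_inv := fun _ => rfl }
  have : Nonempty (((lev X ψ k).W → Y (n k.1) m) × Fin m) :=
    ⟨(fun _ => (1, fun _ => 1), ⟨0, hm⟩)⟩
  have h2 := fr_prod e' fun y => ex ψ (X.al i) k.1 d y ≠ ψ k.1 (X.al i d) y
  have h3 := fr_prod e' fun y => ex ψ (X.be i) k.1 d y ≠ ψ k.1 (X.be i d) y
  rw [← fr_perm (PT m (lev X ψ k) X.τ i)] at h3
  simp only [Function.comp_apply]
  rw [← h2, ← h3]
  refine le_trans (fr_mono ?_) (fr_or_le _ _)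
  intro ω hω
  by_contra hc
  push Not at hc
  apply hω
  exact hN m (lev X ψ k) (ψ k.1) hk ω hc.1 hc.2

/-- the displacement of reduced words in the limit -/
theorem disp_tendsto (hn : ∀ j, 1 ≤ n j)
    (hfree : ∀ a, a ≠ 1 → Tendsto (fun j => fr fun y => ψ j a y = y) l (𝓝 0))
    (hmul : ∀ a b, Tendsto (fun j => fr fun y => ψ j (a * b) y ≠ ψ j a (ψ j b y)) l (𝓝 0))
    (w : List (I × Bool × A)) (hw : Red X.S w) (hne : w ≠ []) (hm : w.length + 1 ≤ m) (a : A) :
    ∀ᶠ k : Λ × Finset (Idx X.D) in l ×ˢ atTop,
      1 / ((m.factorial : ℝ) ^ w.length * m) / 2 ≤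
        mv (PA m (lev X ψ k) X.fA (ψ k.1) a * evalP m (lev X ψ k) X.fA X.τ (ψ k.1) w) := by
  obtain ⟨N, hN⟩ := level_disp (D := X.D) m X.fA X.τ X.S w hw hne hm
  have hev : ∀ᶠ k : Λ × Finset (Idx X.D) in l ×ˢ atTop, N ⊆ k.2 :=
    (eventually_ge_atTop N).prod_inr l
  have hev2 := (badSum_tendsto X ψ hmul hfree w).eventually
    (gt_mem_nhds (show (0 : ℝ) < 1 / 2 by norm_num))
  filter_upwards [hev, hev2] with k hk1 hk2
  have h1 := hN (lev X ψ k) (ψ k.1) (hn k.1) hk1
  have hc : (0 : ℝ) ≤ 1 / ((m.factorial : ℝ) ^ w.length * m) := by positivity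
  refine le_trans ?_ (h1.trans ?_)
  · nlinarith
  · unfold mv
    apply fr_mono
    intro ω hω h
    apply hω
    rw [Perm.mul_apply, PA_apply] at h
    have h2 := congrArg (fun ω : Om m (lev X ψ k) => ω.2.2) h
    exact h2

end limit

/-- **Main theorem**, abstract form. -/
theorem sofic_of_data (hA : IsSofic A) {G : Type w} [Group G] (of : A →* G) (t : I → G)
    (hgen : Subgroup.closure (Set.range of ∪ Set.range t) = ⊤)
    (hrel : ∀ i d, t i * of (X.al i d) = of (X.be i d) * t i)
    (hlift : ∀ (H : Type u) [Group H] (φ : A →* H) (s : I → H),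
      (∀ i d, s i * φ (X.al i d) = φ (X.be i d) * s i) →
      ∃ F : G →* H, (∀ a, F (of a) = φ a) ∧ ∀ i, F (t i) = s i) : IsSofic G := by
  obtain ⟨Λ, l, hl, n, hn, ψ, hmul, hfree⟩ := exists_rep hA
  apply isSofic_of_lim.{u, u, w}
  intro g hg
  obtain ⟨a₀, w₀, hgw₀⟩ := exists_word of t hgen g
  obtain ⟨a₁, w, hw, hw₀⟩ := exists_reduced (fun i d => X.al i d) (fun i d => X.be i d) of t
    hrel X.S (fun i => by unfold Data.S; simp only [if_true])
    (fun i => by unfold Data.S; simp only [Bool.false_eq_true, if_false]) w₀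
  rw [hw₀, ← mul_assoc, ← map_mul] at hgw₀
  set a := a₀ * a₁ with ha
  set m := w.length + 1 with hm
  have hm0 : 0 < m := Nat.succ_pos _
  obtain ⟨F, hF1, hF2⟩ := hlift (Lim (l ×ˢ atTop) (OmL X ψ m)) (clA X ψ m hmul hm0)
    (clT X ψ m l) (clT_clA X ψ m hmul hm0)
  have hF3 : ∀ w' : List (I × Bool × A), F (evalG of t w') =
      cls (l ×ˢ atTop) (OmL X ψ m) fun k => evalP m (lev X ψ k) X.fA X.τ (ψ k.1) w' := by
    intro w'
    induction w' with
    | nil =>
      unfold evalG evalP
      rw [map_one]
      exact (map_one (cls (l ×ˢ atTop) (OmL X ψ m))).symm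
    | cons x w' ih =>
      rcases x with ⟨i, e, b⟩
      unfold evalG evalP
      rw [map_mul, map_mul, ih, hF1]
      cases e with
      | true =>
        simp only [if_true]
        rw [hF2]
        change cls _ _ _ * cls _ _ _ * cls _ _ _ = _
        rw [← map_mul, ← map_mul]
        rfl
      | false =>
        simp only [Bool.false_eq_true, if_false]
        rw [map_inv, hF2]
        change (cls _ _ _)⁻¹ * cls _ _ _ * cls _ _ _ = _
        rw [← map_inv, ← map_mul, ← map_mul]
        rfl
  have hF4 : cls (l ×ˢ atTop) (OmL X ψ m) (fun k => PA m (lev X ψ k) X.fA (ψ k.1) a *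
      evalP m (lev X ψ k) X.fA X.τ (ψ k.1) w) = F g := by
    rw [hgw₀, map_mul, hF1, hF3]
    change _ = cls _ _ _ * cls _ _ _
    rw [← map_mul]
    rfl
  have hne : (l ×ˢ (atTop : Filter (Finset (Idx X.D)))).NeBot := inferInstance
  by_cases hwn : w = []
  · -- an element of the base group
    have ha1 : a ≠ 1 := by
      intro h
      apply hg
      rw [hgw₀, h, hwn, map_one, one_mul]
      rfl
    refine ⟨Λ × Finset (Idx X.D), l ×ˢ atTop, hne, OmL X ψ m, inferInstance, F, _, 1 / 2,
      by norm_num, hF4, ?_⟩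
    have h1 := ((hfree a ha1).comp (tendsto_fst (f := l)
      (g := (atTop : Filter (Finset (Idx X.D)))))).eventually
      (gt_mem_nhds (show (0 : ℝ) < 1 / 2 by norm_num))
    filter_upwards [h1] with k hk
    have : Nonempty (Fin m) := ⟨⟨0, hm0⟩⟩
    let e' : OmL X ψ m k ≃ Fin (n k.1) × (((lev X ψ k).W → Y (n k.1) m) × Fin m) :=
      { toFun := fun ω => (ω.2.1, (ω.1, ω.2.2))
        invFun := fun t => (t.2.1, (t.1, t.2.2))
        left_inv := fun _ => rfl
        right_inv := fun _ => rfl }
    have : Nonempty (((lev X ψ k).W → Y (n k.1) m) × Fin m) :=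
      ⟨(fun _ => (1, fun _ => 1), ⟨0, hm0⟩)⟩
    have : Nonempty (Fin (n k.1)) := ⟨⟨0, hn k.1⟩⟩
    have h2 := fr_not (Y := Fin (n k.1)) (fun y => ψ k.1 a y = y)
    have h3 := fr_prod e' fun y => ¬ ψ k.1 a y = y
    simp only [Function.comp_apply] at hk
    have h4 : (1 : ℝ) / 2 ≤ fr fun y => ¬ ψ k.1 a y = y := by rw [h2]; linarith
    rw [← h3] at h4
    refine h4.trans ?_
    unfold mv
    apply fr_mono
    intro ω hω h
    apply hω
    rw [hwn] at h
    change PA m (lev X ψ k) X.fA (ψ k.1) a ω = ω at h
    rw [PA_apply] at h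
    exact congrArg (fun ω : Om m (lev X ψ k) => ω.2.1) h
  · refine ⟨Λ × Finset (Idx X.D), l ×ˢ atTop, hne, OmL X ψ m, inferInstance, F, _,
      1 / ((m.factorial : ℝ) ^ w.length * m) / 2, by positivity, hF4, ?_⟩
    exact disp_tendsto X ψ m hn hfree hmul w hw hwn le_rfl a

end Pool.Agent.E8helper54.SG
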