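import Pool.Agent.H13.L.Rb67.E8helper54.SG.Path

/-!
A reduced word moves a proportion bounded below of the points of the finite models.
-/

set_option autoImplicit false

namespace Pool.Agent.E8helper54.SG

open Finset Equiv

universe u v

/-! ### Labellings -/

/-- a reduced word in symbols is nontrivial for some labelling by permutations -/
theorem exists_labelling {S : Type*} (l : List (S × Bool)) (hl : FreeGroup.IsReduced l)
    (hne : l ≠ []) (m : ℕ) (hm : l.length + 1 ≤ m) :
    ∃ (z : S → Perm (Fin m)) (k : Fin m), lab z l k ≠ k := by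
  classical
  let F : Finset (FreeGroup S) := (l.tails.map FreeGroup.mk).toFinset
  have hF : ∀ t, t <:+ l → FreeGroup.mk t ∈ F := by
    intro t ht
    rw [List.mem_toFinset, List.mem_map]
    exact ⟨t, (List.mem_tails t l).2 ht, rfl⟩
  have hcard : Fintype.card F ≤ Fintype.card (Fin m) := by
    rw [Fintype.card_coe, Fintype.card_fin]
    refine (List.toFinset_card_le _).trans ?_
    rw [List.length_map, List.length_tails]
    exact hm
  obtain ⟨emb⟩ := Function.Embedding.nonempty_of_card_le hcard
  have hext : ∀ s : S, ∃ σ : Perm F, ∀ (w : F) (h : FreeGroup.of s * w.1 ∈ F),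
      σ w = ⟨FreeGroup.of s * w.1, h⟩ := fun s => exists_ext F _ (mul_right_injective _)
  choose σ hσ using hext
  let z : S → Perm (Fin m) := fun s => (σ s).viaFintypeEmbedding emb
  have hz : ∀ s w, z s (emb w) = emb (σ s w) := fun s w =>
    Equiv.Perm.viaFintypeEmbedding_apply_image _ _ _
  have key : ∀ t (ht : t <:+ l), lab z t (emb ⟨FreeGroup.mk [], hF [] (List.nil_suffix)⟩) =
      emb ⟨FreeGroup.mk t, hF t ht⟩ := by
    intro t
    induction t with
    | nil => intro _; rfl
    | cons s t ih =>
      intro ht
      have ht' : t <:+ l := (List.suffix_cons s t).trans ht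
      rw [lab_cons, Perm.mul_apply, ih ht']
      rcases s with ⟨s, b⟩
      cases b with
      | true =>
        simp only [if_true]
        rw [hz]
        congr 1
        exact hσ s ⟨FreeGroup.mk t, hF t ht'⟩ (hF _ ht)
      | false =>
        simp only [Bool.false_eq_true, if_false]
        rw [Perm.inv_eq_iff_eq, hz]
        congr 1
        have h1 : FreeGroup.of s * FreeGroup.mk ((s, false) :: t) = FreeGroup.mk t := by
          have : FreeGroup.mk ((s, false) :: t) = (FreeGroup.of s)⁻¹ * FreeGroup.mk t := rfl
          rw [this, mul_inv_cancel_left]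
        have h2 := hσ s ⟨FreeGroup.mk ((s, false) :: t), hF _ ht⟩ (by
          simp only
          rw [h1]
          exact hF t ht')
        rw [h2]
        exact Subtype.ext h1.symm
  refine ⟨z, emb ⟨FreeGroup.mk [], hF [] (List.nil_suffix)⟩, ?_⟩
  rw [key l List.suffix_rfl]
  intro h
  have h1 := congrArg Subtype.val (emb.injective h)
  simp only at h1
  have h2 : (FreeGroup.mk l).toWord = (FreeGroup.mk ([] : List (S × Bool))).toWord := by rw [h1]
  rw [FreeGroup.toWord_mk, FreeGroup.toWord_mk, hl.reduce_eq, FreeGroup.reduce_nil] at h2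
  exact hne h2

/-- the proportion of the labellings for which a reduced word is nontrivial -/
theorem fr_label {S : Type*} [Fintype S] [DecidableEq S] (l : List (S × Bool)) (hl : FreeGroup.IsReduced l)
    (hne : l ≠ []) (m : ℕ) (hm : l.length + 1 ≤ m) :
    1 / ((m.factorial : ℝ) ^ l.length * m) ≤
      fr (fun t : (S → Perm (Fin m)) × Fin m => lab t.1 l t.2 ≠ t.2) := by
  obtain ⟨z, k, hzk⟩ := exists_labelling l hl hne m hm
  let T : Finset S := (l.map Prod.fst).toFinset
  have hT : T.card ≤ l.length := by
    refine (List.toFinset_card_le _).trans ?_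
    rw [List.length_map]
  let Q : Finset ((S → Perm (Fin m)) × Fin m) :=
    (Fintype.piFinset fun s => if s ∈ T then {z s} else univ) ×ˢ {k}
  have hQ : Q ⊆ univ.filter fun t : (S → Perm (Fin m)) × Fin m => lab t.1 l t.2 ≠ t.2 := by
    intro t ht
    rw [mem_product, Fintype.mem_piFinset, mem_singleton] at ht
    rw [mem_filter]
    refine ⟨mem_univ _, ?_⟩
    have h1 : lab t.1 l = lab z l := by
      apply lab_congr
      intro s hs
      have h2 := ht.1 s.1
      rw [if_pos (List.mem_toFinset.2 (List.mem_map.2 ⟨s, hs, rfl⟩)), mem_singleton] at h2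
      exact h2
    rw [h1, ht.2]
    exact hzk
  have hcQ : Q.card * m.factorial ^ T.card = m.factorial ^ Fintype.card S := by
    rw [card_product, card_singleton, mul_one, Fintype.card_piFinset]
    have h1 : m.factorial ^ T.card = ∏ s : S, if s ∈ T then m.factorial else 1 := by
      rw [prod_ite_mem, univ_inter, prod_const]
    have h2 : m.factorial ^ Fintype.card S = ∏ _s : S, m.factorial := by
      rw [prod_const, card_univ]
    rw [h1, h2, ← prod_mul_distrib]
    apply prod_congr rfl
    intro s _
    split_ifs with h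
    · rw [card_singleton, one_mul]
    · rw [card_univ, Fintype.card_perm, Fintype.card_fin, mul_one]
  have hm0 : 0 < m := by omega
  have hmf : (0 : ℝ) < m.factorial := by exact_mod_cast Nat.factorial_pos m
  have hmf1 : (1 : ℝ) ≤ m.factorial := by exact_mod_cast Nat.factorial_pos m
  have hm0' : (0 : ℝ) < m := by exact_mod_cast hm0
  unfold fr
  have hcard : (Fintype.card ((S → Perm (Fin m)) × Fin m) : ℝ) =
      (m.factorial : ℝ) ^ Fintype.card S * m := by
    rw [Fintype.card_prod, Fintype.card_fun, Fintype.card_perm, Fintype.card_fin]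
    push_cast
    rfl
  rw [hcard, div_le_div_iff₀ (by positivity) (by positivity), one_mul]
  have h3 : (Q.card : ℝ) ≤
      ((univ.filter fun t : (S → Perm (Fin m)) × Fin m => lab t.1 l t.2 ≠ t.2).card : ℝ) := by
    exact_mod_cast card_le_card hQ
  have h4 : (m.factorial : ℝ) ^ Fintype.card S = Q.card * (m.factorial : ℝ) ^ T.card := by
    exact_mod_cast hcQ.symm
  have h5 : (m.factorial : ℝ) ^ T.card ≤ (m.factorial : ℝ) ^ l.length :=
    pow_le_pow_right₀ hmf1 hT
  rw [h4]
  calc (Q.card : ℝ) * (m.factorial : ℝ) ^ T.card * m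
      ≤ ((univ.filter fun t : (S → Perm (Fin m)) × Fin m => lab t.1 l t.2 ≠ t.2).card : ℝ) *
          (m.factorial : ℝ) ^ l.length * m := by gcongr
    _ ≤ _ := by
        rw [mul_assoc]
        apply le_of_eq
        congr

/-! ### Fibres -/

section fibre

variable {Y Z T : Type*} [Fintype Y] [Fintype Z] [Fintype T]

open Classical in
theorem fr_eq_sum (P : Y → Prop) :
    fr P = (∑ y : Y, if P y then (1 : ℝ) else 0) / Fintype.card Y := by
  unfold fr
  rw [Finset.sum_boole]

theorem fr_fibre (e : Y ≃ Z × T) (G : Z → Prop) (M : Y → Prop) (c : ℝ)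
    (h : ∀ z, G z → c ≤ fr (fun t => M (e.symm (z, t)))) : c * fr G ≤ fr M := by
  classical
  rcases isEmpty_or_nonempty T with hT | hT
  · have h1 : ∀ z, G z → c ≤ 0 := by
      intro z hz
      refine (h z hz).trans ?_
      unfold fr
      simp
    by_cases hG : ∃ z, G z
    · obtain ⟨z, hz⟩ := hG
      exact (mul_nonpos_of_nonpos_of_nonneg (h1 z hz) (fr_nonneg _)).trans (fr_nonneg _)
    · push Not at hG
      have : fr G = 0 := by
        unfold fr
        rw [filter_false_of_mem fun z _ => hG z]
        simp
      rw [this, mul_zero]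
      exact fr_nonneg _
  have hTc : (0 : ℝ) < Fintype.card T := by exact_mod_cast Fintype.card_pos
  have h2 : ∀ z, (if G z then c * Fintype.card T else 0) ≤
      ∑ t : T, if M (e.symm (z, t)) then (1 : ℝ) else 0 := by
    intro z
    by_cases hz : G z
    · rw [if_pos hz]
      have h3 := h z hz
      rw [fr_eq_sum, le_div_iff₀ hTc] at h3
      exact h3
    · rw [if_neg hz]
      exact sum_nonneg fun t _ => by split_ifs <;> norm_num
  have h3 : (∑ y : Y, if M y then (1 : ℝ) else 0) =
      ∑ z : Z, ∑ t : T, if M (e.symm (z, t)) then (1 : ℝ) else 0 := by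
    rw [← Fintype.sum_prod_type']
    exact Fintype.sum_equiv e _ _ fun y => by rw [e.symm_apply_apply]
  rw [fr_eq_sum M, h3, fr_eq_sum G, Fintype.card_congr e, Fintype.card_prod]
  push_cast
  rcases isEmpty_or_nonempty Z with hZ | hZ
  · simp
  have hZc : (0 : ℝ) < Fintype.card Z := by exact_mod_cast Fintype.card_pos
  rw [mul_div_assoc', div_le_div_iff₀ hZc (by positivity)]
  have h4 := sum_le_sum fun z (_ : z ∈ univ) => h2 z
  have h5 : (∑ z : Z, if G z then c * Fintype.card T else 0) =
      c * (∑ z : Z, if G z then (1 : ℝ) else 0) * Fintype.card T := by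
    rw [mul_sum, sum_mul]
    apply sum_congr rfl
    intro z _
    split_ifs <;> ring
  rw [h5] at h4
  nlinarith

end fibre

/-! ### Reduced words -/

variable {β I : Type u} {D : I → Subgroup (FreeGroup β)} {n : ℕ} (m : ℕ) (L : Lev D n)
variable {A : Type v} [Group A] (fA : A →* FreeGroup β) (τ : I → FreeGroup β)
  (ψ : A → Perm (Fin n)) (S : I → Bool → Set A)

/-- reduced words -/
def Red (w : List (I × Bool × A)) : Prop :=
  w.IsChain fun a b => a.1 = b.1 → a.2.1 ≠ b.2.1 → a.2.2 ∉ S a.1 a.2.1

/-- no intermediate point of the path is bad -/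
def Good (x : L.W → Y n m) (p : Fin n) : List (I × Bool × A) → Prop
  | [] => True
  | (i, e, a) :: w => (a ∉ S i e → ¬ Bad L fA τ ψ i e a (path m L fA τ ψ x p w).1) ∧
      Good x p w

theorem path_reduced (x : L.W → Y n m) (p : Fin n) (w : List (I × Bool × A))
    (hw : Red S w) (hg : Good m L fA τ ψ S x p w)
    (hmem : ∀ s ∈ (path m L fA τ ψ x p w).2, s.1.1 ∈ L.W) :
    FreeGroup.IsReduced (path m L fA τ ψ x p w).2 := by
  induction w with
  | nil => exact FreeGroup.IsReduced.nil
  | cons a w ih =>
    rcases a with ⟨i, e, a⟩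
    have hw' : Red S w := List.IsChain.of_cons hw
    unfold Good at hg
    have hmem' : ∀ s ∈ (path m L fA τ ψ x p w).2, s.1.1 ∈ L.W := by
      intro s hs
      apply hmem
      unfold path
      exact List.mem_cons_of_mem _ hs
    have h1 := ih hw' hg.2 hmem'
    cases w with
    | nil =>
      unfold path path
      exact FreeGroup.IsReduced.singleton
    | cons b w =>
      rcases b with ⟨j, e', a'⟩
      have h2 : (path m L fA τ ψ x p ((i, e, a) :: (j, e', a') :: w)).2 = ((cs D i (src fA τ i e a ((j, e', a') :: w))⁻¹,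
        L.p i (dd D i ((rep (cs D i (src fA τ i e a ((j, e', a') :: w))⁻¹))⁻¹ * (src fA τ i e a ((j, e', a') :: w))⁻¹))
          (if e then ψ a (path m L fA τ ψ x p ((j, e', a') :: w)).1
            else (val m L i (src fA τ i e a ((j, e', a') :: w))⁻¹ x).1⁻¹ (ψ a (path m L fA τ ψ x p ((j, e', a') :: w)).1))), e) ::
        (path m L fA τ ψ x p ((j, e', a') :: w)).2 := by
        rfl
      have h3 : (path m L fA τ ψ x p ((j, e', a') :: w)).2 = ((cs D j (src fA τ j e' a' w)⁻¹,
        L.p j (dd D j ((rep (cs D j (src fA τ j e' a' w)⁻¹))⁻¹ * (src fA τ j e' a' w)⁻¹))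
          (if e' then ψ a' (path m L fA τ ψ x p w).1
            else (val m L j (src fA τ j e' a' w)⁻¹ x).1⁻¹ (ψ a' (path m L fA τ ψ x p w).1))), e') ::
        (path m L fA τ ψ x p w).2 := by
        rfl
      rw [h2, h3, FreeGroup.isReduced_cons_cons]
      refine ⟨?_, by rw [← h3]; exact h1⟩
      simp only
      intro h4
      by_contra hne
      have h5 := Prod.ext_iff.1 h4
      simp only at h5
      have h6 := ((cs_eq_iff _ _).1 h5.1).1
      subst h6
      have h7 : e' = !e := by
        cases e <;> cases e' <;> simp_all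
      subst h7
      have h8 : a ∉ S i e := by
        have := (List.isChain_cons_cons.1 hw).1
        exact this rfl hne
      refine hg.1 h8 ?_
      apply symbols_ne
      · have := hmem' (_, (!e)) (by rw [h3]; exact List.mem_cons_self)
        exact this
      · exact h5.1
      · exact h5.2

end Pool.Agent.E8helper54.SG
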