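import Pool.Agent.H13.L.Rb67.E8helper54.SG.Count

/-!
The displacement of a reduced word in a finite model.
-/

set_option autoImplicit false

namespace Pool.Agent.E8helper54.SG

open Finset Equiv

universe u v

variable {β I : Type u} {D : I → Subgroup (FreeGroup β)} {n : ℕ} (m : ℕ) (L : Lev D n)
variable {A : Type v} [Group A] (fA : A →* FreeGroup β) (τ : I → FreeGroup β)
  (ψ : A → Perm (Fin n)) (S : I → Bool → Set A)

open Classical in
/-- the sum of the sizes of the bad sets -/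
noncomputable def badSum : List (I × Bool × A) → ℝ
  | [] => 0
  | (i, e, a) :: w => (if a ∈ S i e then 0 else fr (Bad L fA τ ψ i e a)) + badSum w

theorem fr_not_good (hm : 0 < m) (w : List (I × Bool × A)) : ∃ N : Finset (Idx D),
    ∀ {n : ℕ} (L : Lev D n) (ψ : A → Perm (Fin n)), N ⊆ L.W →
      fr (fun ω : Om m L => ¬ Good m L fA τ ψ S ω.1 ω.2.1 w) ≤ badSum L fA τ ψ S w := by
  induction w with
  | nil =>
    refine ⟨∅, fun {n} L ψ _ => ?_⟩
    unfold Good badSum
    simp only [not_true_eq_false]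
    exact fr_false.le
  | cons a w ih =>
    rcases a with ⟨i, e, a⟩
    obtain ⟨N, hN⟩ := ih
    obtain ⟨N', hN'⟩ := evalP_apply (D := D) fA τ w
    refine ⟨N ∪ N', fun {n} L ψ hL => ?_⟩
    have h1 := hN L ψ (subset_union_left.trans hL)
    have h2 := hN' m L ψ (subset_union_right.trans hL)
    unfold Good badSum
    have h3 : fr (fun ω : Om m L => ¬ ((a ∉ S i e → ¬ Bad L fA τ ψ i e a
        (path m L fA τ ψ ω.1 ω.2.1 w).1) ∧ Good m L fA τ ψ S ω.1 ω.2.1 w)) ≤
        fr (fun ω : Om m L => a ∉ S i e ∧ Bad L fA τ ψ i e a (path m L fA τ ψ ω.1 ω.2.1 w).1) +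
        fr (fun ω : Om m L => ¬ Good m L fA τ ψ S ω.1 ω.2.1 w) := by
      refine le_trans (fr_mono ?_) (fr_or_le _ _)
      intro ω hω
      by_contra hc
      push Not at hc
      exact hω ⟨fun h => hc.1 h, hc.2⟩
    refine h3.trans (add_le_add ?_ h1)
    split_ifs with h4
    · refine le_trans (fr_mono fun ω hω => ?_) (fr_false (Y := Om m L)).le
      exact hω.1 h4
    · have h5 : fr (fun ω : Om m L => a ∉ S i e ∧
          Bad L fA τ ψ i e a (path m L fA τ ψ ω.1 ω.2.1 w).1) ≤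
          fr (fun ω : Om m L => Bad L fA τ ψ i e a (evalP m L fA τ ψ w ω).2.1) := by
        apply fr_mono
        rintro ⟨x, p, k⟩ ⟨_, hω⟩
        rw [h2]
        exact hω
      refine h5.trans ?_
      rw [fr_perm (evalP m L fA τ ψ w) (fun ω : Om m L => Bad L fA τ ψ i e a ω.2.1)]
      have : Nonempty (Fin m) := ⟨⟨0, hm⟩⟩
      let e' : Om m L ≃ Fin n × ((L.W → Y n m) × Fin m) :=
        { toFun := fun ω => (ω.2.1, (ω.1, ω.2.2))
          invFun := fun t => (t.2.1, (t.1, t.2.2))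
          left_inv := fun _ => rfl
          right_inv := fun _ => rfl }
      have : Nonempty ((L.W → Y n m) × Fin m) := ⟨(fun _ => (1, fun _ => 1), ⟨0, hm⟩)⟩
      exact (fr_prod e' (Bad L fA τ ψ i e a)).le

theorem exists_lift_list {X V : Type*} (W : Finset X) (l : List ((X × V) × Bool))
    (h : ∀ s ∈ l, s.1.1 ∈ W) :
    ∃ l' : List ((W × V) × Bool), l'.map (fun s => (((s.1.1 : X), s.1.2), s.2)) = l := by
  induction l with
  | nil => exact ⟨[], rfl⟩
  | cons a l ih =>
    obtain ⟨l', hl'⟩ := ih fun s hs => h s (List.mem_cons_of_mem _ hs)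
    rcases a with ⟨⟨x, v⟩, b⟩
    refine ⟨((⟨x, h ((x, v), b) List.mem_cons_self⟩, v), b) :: l', ?_⟩
    rw [List.map_cons, hl']

/-- **Displacement.** -/
theorem level_disp (w : List (I × Bool × A)) (hw : Red S w) (hne : w ≠ [])
    (hm : w.length + 1 ≤ m) : ∃ N : Finset (Idx D),
    ∀ {n : ℕ} (L : Lev D n) (ψ : A → Perm (Fin n)), 0 < n → N ⊆ L.W →
      1 / ((m.factorial : ℝ) ^ w.length * m) * (1 - badSum L fA τ ψ S w) ≤
        fr (fun ω : Om m L => (evalP m L fA τ ψ w ω).2.2 ≠ ω.2.2) := by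
  obtain ⟨N₁, hN₁⟩ := fr_not_good (D := D) m fA τ S (by omega : 0 < m) w
  obtain ⟨N₂, hN₂⟩ := evalP_apply (D := D) fA τ w
  obtain ⟨N₃, hN₃⟩ := path_mem (D := D) fA τ w
  refine ⟨N₁ ∪ N₂ ∪ N₃, fun {n} L ψ hn hL => ?_⟩
  have h1 := hN₁ L ψ ((subset_union_left.trans subset_union_left).trans hL)
  have h2 := hN₂ m L ψ ((subset_union_right.trans subset_union_left).trans hL)
  have h3 := hN₃ m L ψ (subset_union_right.trans hL)
  let e : Om m L ≃ ((L.W → Perm (Fin n)) × Fin n) × ((L.W × Fin n → Perm (Fin m)) × Fin m) :=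
    { toFun := fun ω => ((fun c => (ω.1 c).1, ω.2.1), (fun s => (ω.1 s.1).2 s.2, ω.2.2))
      invFun := fun t => (fun c => (t.1.1 c, fun v => t.2.1 (c, v)), (t.1.2, t.2.2))
      left_inv := fun _ => rfl
      right_inv := fun _ => rfl }
  let G : (L.W → Perm (Fin n)) × Fin n → Prop := fun z =>
    Good m L fA τ ψ S (fun c => (z.1 c, fun _ => 1)) z.2 w
  have hGcongr : ∀ (x x' : L.W → Y n m), (∀ c, (x c).1 = (x' c).1) → ∀ p : Fin n,
      ∀ w' : List (I × Bool × A), Good m L fA τ ψ S x p w' → Good m L fA τ ψ S x' p w' := by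
    intro x x' hxx p w'
    induction w' with
    | nil => exact fun _ => trivial
    | cons a w' ih =>
      rcases a with ⟨i, e, a⟩
      unfold Good
      rintro ⟨hg1, hg2⟩
      refine ⟨fun h => ?_, ih hg2⟩
      rw [← path_congr m L fA τ ψ x x' hxx]
      exact hg1 h
  have hG : ∀ ω : Om m L, G (e ω).1 ↔ Good m L fA τ ψ S ω.1 ω.2.1 w := by
    intro ω
    constructor
    · exact hGcongr (fun c => ((ω.1 c).1, fun _ => 1)) ω.1 (fun c => rfl) ω.2.1 w
    · exact hGcongr ω.1 (fun c => ((ω.1 c).1, fun _ => 1)) (fun c => rfl) ω.2.1 w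
  have : Nonempty (Fin m) := ⟨⟨0, by omega⟩⟩
  have : Nonempty (Om m L) := ⟨(fun _ => (1, fun _ => 1), (⟨0, hn⟩, ⟨0, by omega⟩))⟩
  have hfrG : 1 - badSum L fA τ ψ S w ≤ fr G := by
    have h4 : fr G = fr (fun ω : Om m L => Good m L fA τ ψ S ω.1 ω.2.1 w) := by
      rw [← fr_prod e G]
      congr 1
      funext ω
      exact propext (hG ω)
    have h5 := fr_not (Y := Om m L) (fun ω => Good m L fA τ ψ S ω.1 ω.2.1 w)
    rw [h4]
    linarith
  have hc : (0 : ℝ) ≤ 1 / ((m.factorial : ℝ) ^ w.length * m) := by positivity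
  refine (mul_le_mul_of_nonneg_left hfrG hc).trans ?_
  apply fr_fibre e G
  rintro ⟨π, p⟩ hz
  set x₀ : L.W → Y n m := fun c => (π c, fun _ => 1) with hx₀
  have hred := path_reduced m L fA τ ψ S x₀ p w hw hz (h3 x₀ p)
  obtain ⟨l', hl'⟩ := exists_lift_list L.W (path m L fA τ ψ x₀ p w).2 (h3 x₀ p)
  have hlen : l'.length = w.length := by
    rw [← path_length m L fA τ ψ x₀ p w, ← hl', List.length_map]
  have hred' : FreeGroup.IsReduced l' := by
    rw [← hl'] at hred
    unfold FreeGroup.IsReduced at hred ⊢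
    rw [List.isChain_map] at hred
    refine hred.imp ?_
    intro a b hab h
    apply hab
    rw [h]
  have hne' : l' ≠ [] := by
    intro h
    apply hne
    rw [← List.length_eq_zero_iff, ← hlen, h, List.length_nil]
  have h6 := fr_label l' hred' hne' m (by rw [hlen]; exact hm)
  rw [hlen] at h6
  refine h6.trans (fr_mono ?_)
  rintro ⟨Z, k⟩ ht
  simp only at ht
  change (evalP m L fA τ ψ w (fun c => (π c, fun v => Z (c, v)), (p, k))).2.2 ≠ k
  rw [h2, ← path_congr m L fA τ ψ x₀ (fun c => (π c, fun v => Z (c, v))) (fun c => rfl) p w]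
  simp only
  have h7 : lab (lb m L (fun c => (π c, fun v => Z (c, v)))) (path m L fA τ ψ x₀ p w).2 =
      lab Z l' := by
    rw [← hl']
    unfold lab
    rw [List.map_map]
    congr 1
    apply List.map_congr_left
    rintro ⟨⟨c, v⟩, b⟩ _
    simp only [Function.comp_apply]
    have h8 : lb m L (fun c => (π c, fun v => Z (c, v))) ((c : Idx D), v) = Z (c, v) := by
      unfold lb
      rw [dif_pos c.2]
    rw [h8]
  rw [h7]
  exact ht

end Pool.Agent.E8helper54.SG
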