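import Pool.Agent.H13.L.Rb67.E8helper54.SG.Lim

/-!
The finite models.  `Idx D` is the set of all cosets of the edge groups `D i` in the free group.
A level consists of a finite window `W` of cosets and of exact actions of the edge groups on
`Fin n`.  The free group acts exactly on the set `W → Y` of gluing data over the window.
-/

set_option autoImplicit false

namespace Pool.Agent.E8helper54.SG

open Finset Equiv

universe u v

/-! ### Extension of partial injections -/

theorem exists_ext_sub {T : Type*} [Fintype T] (R : T → T → Prop)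
    (h1 : ∀ a b b', R a b → R a b' → b = b') (h2 : ∀ a a' b, R a b → R a' b → a = a') :
    ∃ σ : Perm T, ∀ a b, R a b → σ a = b := by
  classical
  have hf : ∀ a : {a : T // ∃ b, R a b}, R a.1 a.2.choose := fun a => a.2.choose_spec
  let e : {a : T // ∃ b, R a b} ≃ {b : T // ∃ a, R a b} := Equiv.ofBijective
    (fun a => ⟨a.2.choose, a.1, hf a⟩) (by
      constructor
      · intro a a' h
        have h3 : a.2.choose = a'.2.choose := congrArg Subtype.val h
        apply Subtype.ext
        refine h2 a.1 a'.1 a.2.choose (hf a) ?_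
        rw [h3]
        exact hf a'
      · rintro ⟨b, a, hab⟩
        refine ⟨⟨a, b, hab⟩, Subtype.ext ?_⟩
        exact h1 a _ _ (hf ⟨a, b, hab⟩) hab)
  refine ⟨e.extendSubtype, fun a b hab => ?_⟩
  rw [e.extendSubtype_apply_of_mem a ⟨b, hab⟩]
  exact h1 a _ _ (hf ⟨a, b, hab⟩) hab

theorem exists_ext {X : Type*} (W : Finset X) (f : X → X) (hf : Function.Injective f) :
    ∃ σ : Perm W, ∀ (w : W) (h : f w ∈ W), σ w = ⟨f w, h⟩ := by
  obtain ⟨σ, hσ⟩ := exists_ext_sub (T := W) (fun a b => f a = b)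
    (fun a b b' h h' => Subtype.ext (h.symm.trans h'))
    (fun a a' b h h' => Subtype.ext (hf (h.trans h'.symm)))
  exact ⟨σ, fun w h => hσ w ⟨f w, h⟩ rfl⟩

/-! ### Levels -/

variable {β I : Type u} (D : I → Subgroup (FreeGroup β))

/-- the cosets of all edge groups -/
abbrev Idx := Σ i, (FreeGroup β ⧸ D i)

noncomputable instance instDecidableEqIdx : DecidableEq (Idx D) := Classical.decEq _

variable {D}

variable (D) in
/-- the coset `q D_i` -/
def cs (i : I) (q : FreeGroup β) : Idx D := ⟨i, (q : FreeGroup β ⧸ D i)⟩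

/-- left multiplication -/
def lm (g : FreeGroup β) (s : Idx D) : Idx D := ⟨s.1, g • s.2⟩

theorem lm_injective (g : FreeGroup β) : Function.Injective (lm (D := D) g) := by
  rintro ⟨i, s⟩ ⟨j, t⟩ h
  unfold lm at h
  simp only [Sigma.mk.injEq] at h
  obtain ⟨h1, h2⟩ := h
  subst h1
  rw [heq_eq_eq] at h2
  rw [(MulAction.injective g) h2]

theorem lm_cs (g q : FreeGroup β) (i : I) : lm g (cs D i q) = cs D i (g * q) := rfl

/-- a representative of a coset -/
noncomputable def rep (s : Idx D) : FreeGroup β := Quotient.out s.2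

theorem rep_mem (i : I) (q : FreeGroup β) : (rep (cs D i q))⁻¹ * q ∈ D i := by
  rw [← QuotientGroup.eq]
  exact Quotient.out_eq _

theorem cs_mul {i : I} (q : FreeGroup β) {d : FreeGroup β} (hd : d ∈ D i) :
    cs D i (q * d) = cs D i q := by
  unfold cs
  rw [QuotientGroup.mk_mul_of_mem _ hd]

theorem cs_eq_iff {i j : I} (q q' : FreeGroup β) :
    cs D i q = cs D j q' ↔ i = j ∧ q⁻¹ * q' ∈ D i := by
  constructor
  · intro h
    unfold cs at h
    simp only [Sigma.mk.injEq] at h
    obtain ⟨h1, h2⟩ := h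
    subst h1
    rw [heq_eq_eq, QuotientGroup.eq] at h2
    exact ⟨rfl, h2⟩
  · rintro ⟨rfl, h⟩
    unfold cs
    rw [QuotientGroup.eq.2 h]

open Classical in
variable (D) in
/-- an element of the free group as an element of the subgroup -/
noncomputable def dd (i : I) (q : FreeGroup β) : D i := if h : q ∈ D i then ⟨q, h⟩ else 1

theorem dd_of_mem {i : I} {q : FreeGroup β} (h : q ∈ D i) : dd D i q = ⟨q, h⟩ := by
  unfold dd
  rw [dif_pos h]

theorem dd_coe {i : I} (d : D i) : dd D i d = d := dd_of_mem d.2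

theorem dd_mul {i : I} {q r : FreeGroup β} (h : q ∈ D i) (h' : r ∈ D i) :
    dd D i (q * r) = dd D i q * dd D i r := by
  rw [dd_of_mem h, dd_of_mem h', dd_of_mem (mul_mem h h')]
  rfl

theorem dd_inv {i : I} {q : FreeGroup β} (h : q ∈ D i) : dd D i q⁻¹ = (dd D i q)⁻¹ := by
  rw [dd_of_mem h, dd_of_mem (inv_mem h)]
  rfl

/-- gluing data: a permutation of `Fin n` and labels in `Sym (Fin m)` -/
abbrev Y (n m : ℕ) : Type := Perm (Fin n) × (Fin n → Perm (Fin m))

/-- `(a, b) · (π, z) = (b π a⁻¹, z ∘ a⁻¹)` -/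
def twist (n m : ℕ) : Perm (Fin n) × Perm (Fin n) →* Perm (Y n m) where
  toFun ab :=
    { toFun := fun y => (ab.2 * y.1 * ab.1⁻¹, fun v => y.2 (ab.1⁻¹ v))
      invFun := fun y => (ab.2⁻¹ * y.1 * ab.1, fun v => y.2 (ab.1 v))
      left_inv := fun y => by
        apply Prod.ext
        · simp only
          group
        · funext v
          simp
      right_inv := fun y => by
        apply Prod.ext
        · simp only
          group
        · funext v
          simp }
  map_one' := by
    ext1 y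
    apply Prod.ext
    · simp
    · funext v
      simp
  map_mul' ab cd := by
    ext1 y
    apply Prod.ext
    · change (ab.2 * cd.2) * y.1 * (ab.1 * cd.1)⁻¹ = ab.2 * (cd.2 * y.1 * cd.1⁻¹) * ab.1⁻¹
      group
    · funext v
      change y.2 ((ab.1 * cd.1)⁻¹ v) = y.2 (cd.1⁻¹ (ab.1⁻¹ v))
      rw [mul_inv_rev, Perm.mul_apply]

theorem twist_apply {n m : ℕ} (ab : Perm (Fin n) × Perm (Fin n)) (y : Y n m) :
    twist n m ab y = (ab.2 * y.1 * ab.1⁻¹, fun v => y.2 (ab.1⁻¹ v)) := rfl

theorem twist_inv_apply {n m : ℕ} (ab : Perm (Fin n) × Perm (Fin n)) (y : Y n m) :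
    (twist n m ab)⁻¹ y = (ab.2⁻¹ * y.1 * ab.1, fun v => y.2 (ab.1 v)) := rfl

variable (D) in
/-- A level: a finite window of cosets and exact actions of the edge groups. -/
structure Lev (n : ℕ) where
  /-- the window -/
  W : Finset (Idx D)
  /-- the action at the origin of the edges -/
  p : ∀ i, D i →* Perm (Fin n)
  /-- the action at the end of the edges -/
  r : ∀ i, D i →* Perm (Fin n)

variable {n : ℕ} (m : ℕ) (L : Lev D n)

/-- the action of the edge group on the gluing data -/
def th (i : I) : D i →* Perm (Y n m) := (twist n m).comp ((L.p i).prod (L.r i))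

theorem th_apply (i : I) (d : D i) (y : Y n m) :
    th m L i d y = (L.r i d * y.1 * (L.p i d)⁻¹, fun v => y.2 ((L.p i d)⁻¹ v)) := rfl

theorem th_inv_apply (i : I) (d : D i) (y : Y n m) :
    (th m L i d)⁻¹ y = ((L.r i d)⁻¹ * y.1 * L.p i d, fun v => y.2 (L.p i d v)) := rfl

/-- the partial permutation of the window, extended -/
noncomputable def gi (b : β) : Perm L.W :=
  (exists_ext L.W (lm (FreeGroup.of b)) (lm_injective _)).choose

theorem gi_spec (b : β) (w : L.W) (h : lm (FreeGroup.of b) w.1 ∈ L.W) :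
    gi L b w = ⟨lm (FreeGroup.of b) w.1, h⟩ :=
  (exists_ext L.W (lm (FreeGroup.of b)) (lm_injective _)).choose_spec w h

/-- the action of a generator on the gluing data over the window -/
noncomputable def gp (b : β) : Perm (L.W → Y n m) :=
  (Equiv.arrowCongr (gi L b) (Equiv.refl _)).trans (Equiv.piCongrRight fun w' =>
    th m L w'.1.1 (dd D w'.1.1 ((rep w'.1)⁻¹ * FreeGroup.of b * rep ((gi L b)⁻¹ w').1)))

theorem gp_apply (b : β) (x : L.W → Y n m) (w' : L.W) :
    gp m L b x w' = th m L w'.1.1 (dd D w'.1.1 ((rep w'.1)⁻¹ * FreeGroup.of b *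
      rep ((gi L b)⁻¹ w').1)) (x ((gi L b)⁻¹ w')) := rfl

/-- the action of the free group on the gluing data over the window -/
noncomputable def Th : FreeGroup β →* Perm (L.W → Y n m) := FreeGroup.lift (gp m L)

open Classical in
/-- the gluing at the coset `q D_i`, seen from `q` -/
noncomputable def val (i : I) (q : FreeGroup β) (x : L.W → Y n m) : Y n m :=
  if h : cs D i q ∈ L.W then (th m L i (dd D i ((rep (cs D i q))⁻¹ * q)))⁻¹ (x ⟨_, h⟩)
  else (1, fun _ => 1)

theorem val_of_mem {i : I} {q : FreeGroup β} (h : cs D i q ∈ L.W) (x : L.W → Y n m) :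
    val m L i q x = (th m L i (dd D i ((rep (cs D i q))⁻¹ * q)))⁻¹ (x ⟨_, h⟩) := by
  unfold val
  rw [dif_pos h]

theorem val_mul {i : I} {q : FreeGroup β} (h : cs D i q ∈ L.W) {d : FreeGroup β} (hd : d ∈ D i)
    (x : L.W → Y n m) : val m L i (q * d) x = (th m L i (dd D i d))⁻¹ (val m L i q x) := by
  have h1 : cs D i (q * d) = cs D i q := cs_mul q hd
  have h2 : cs D i (q * d) ∈ L.W := by rw [h1]; exact h
  rw [val_of_mem m L h2, val_of_mem m L h]
  have h3 : (⟨cs D i (q * d), h2⟩ : L.W) = ⟨cs D i q, h⟩ := Subtype.ext h1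
  rw [h3, h1, ← mul_assoc, dd_mul (rep_mem i q) hd, map_mul, mul_inv_rev, Perm.mul_apply]

theorem val_gp {i : I} {q : FreeGroup β} {b : β} (h : cs D i q ∈ L.W)
    (h' : cs D i (FreeGroup.of b * q) ∈ L.W) (x : L.W → Y n m) :
    val m L i (FreeGroup.of b * q) (gp m L b x) = val m L i q x := by
  rw [val_of_mem m L h', val_of_mem m L h, gp_apply]
  have h1 : (gi L b)⁻¹ ⟨cs D i (FreeGroup.of b * q), h'⟩ = ⟨cs D i q, h⟩ := by
    rw [Perm.inv_eq_iff_eq, gi_spec L b ⟨cs D i q, h⟩ h']
    rfl
  rw [h1]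
  change (th m L i _)⁻¹ (th m L i _ _) = _
  rw [← Perm.mul_apply, ← map_inv, ← map_inv, ← map_mul]
  congr 2
  have h2 : (rep (cs D i (FreeGroup.of b * q)))⁻¹ * (FreeGroup.of b * q) ∈ D i := rep_mem _ _
  have h3 : (rep (cs D i q))⁻¹ * q ∈ D i := rep_mem _ _
  have h4 : (rep (cs D i (FreeGroup.of b * q)))⁻¹ * FreeGroup.of b * rep (cs D i q) =
      ((rep (cs D i (FreeGroup.of b * q)))⁻¹ * (FreeGroup.of b * q)) *
        ((rep (cs D i q))⁻¹ * q)⁻¹ := by group
  change (dd D i _)⁻¹ * dd D i ((rep (cs D i (FreeGroup.of b * q)))⁻¹ * FreeGroup.of b *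
    rep (cs D i q)) = _
  rw [h4, dd_mul h2 (inv_mem h3), dd_inv h3, inv_mul_cancel_left]

/-- `q ↦ val i q` is equivariant for large windows -/
theorem val_Th (g : FreeGroup β) : ∀ (q : FreeGroup β) (i : I), ∃ N : Finset (Idx D),
    ∀ {n : ℕ} (m : ℕ) (L : Lev D n), N ⊆ L.W → ∀ x : L.W → Y n m,
      val m L i (g * q) (Th m L g x) = val m L i q x := by
  induction g using FreeGroup.induction_on with
  | C1 =>
    intro q i
    exact ⟨∅, fun m L _ x => by rw [map_one, one_mul, Perm.one_apply]⟩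
  | of b =>
    intro q i
    refine ⟨{cs D i q, cs D i (FreeGroup.of b * q)}, fun m L hN x => ?_⟩
    have h1 : Th m L (FreeGroup.of b) = gp m L b := FreeGroup.lift_apply_of
    change val m L i (FreeGroup.of b * q) (Th m L (FreeGroup.of b) x) = _
    rw [h1]
    exact val_gp m L (hN (by simp)) (hN (by simp)) x
  | inv_of b ih =>
    intro q i
    obtain ⟨N, hN⟩ := ih ((FreeGroup.of b)⁻¹ * q) i
    refine ⟨N, fun m L hL x => ?_⟩
    have := hN m L hL (Th m L (FreeGroup.of b)⁻¹ x)
    rw [mul_inv_cancel_left, ← Perm.mul_apply, ← map_mul, mul_inv_cancel, map_one,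
      Perm.one_apply] at this
    exact this.symm
  | mul g g' ih ih' =>
    intro q i
    obtain ⟨N, hN⟩ := ih' q i
    obtain ⟨N', hN'⟩ := ih (g' * q) i
    refine ⟨N ∪ N', fun m L hL x => ?_⟩
    rw [mul_assoc, map_mul, Perm.mul_apply, hN' m L (subset_union_right.trans hL),
      hN m L (subset_union_left.trans hL)]

end Pool.Agent.E8helper54.SG
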