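import Pool.Agent.H13.L.S8.H21R2.Criterion

/-!
Ultraproduct-like limits of finite symmetric groups with the normalised Hamming distance, and the
criterion for soficity in terms of homomorphisms to them.
-/

set_option autoImplicit false

namespace Pool.Agent.E8helper54.SG

open Finset Filter Topology Pool.Agent.H21R2

universe u v w

section fr

variable {Y Z T : Type*} [Fintype Y] [Fintype Z] [Fintype T]

open Classical in
/-- the proportion of the points with the property `P` -/
noncomputable def fr (P : Y → Prop) : ℝ := ((univ.filter P).card : ℝ) / Fintype.card Y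

theorem fr_nonneg (P : Y → Prop) : 0 ≤ fr P := by unfold fr; positivity

theorem fr_mono {P Q : Y → Prop} (h : ∀ y, P y → Q y) : fr P ≤ fr Q := by
  classical
  unfold fr
  apply div_le_div_of_nonneg_right _ (Nat.cast_nonneg _)
  exact_mod_cast card_le_card fun y hy => by
    rw [mem_filter] at hy ⊢
    exact ⟨hy.1, h y hy.2⟩

theorem fr_or_le (P Q : Y → Prop) : fr (fun y => P y ∨ Q y) ≤ fr P + fr Q := by
  classical
  unfold fr
  rw [← add_div]
  apply div_le_div_of_nonneg_right _ (Nat.cast_nonneg _)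
  have h : (univ.filter fun y => P y ∨ Q y) ⊆ univ.filter P ∪ univ.filter Q := by
    intro y hy
    rw [mem_union, mem_filter, mem_filter]
    rw [mem_filter] at hy
    exact hy.2.imp (fun h => ⟨mem_univ _, h⟩) fun h => ⟨mem_univ _, h⟩
  have h2 := (card_le_card h).trans (card_union_le _ _)
  refine le_trans (le_of_eq ?_) (by exact_mod_cast h2 :
    (((univ.filter fun y => P y ∨ Q y).card : ℕ) : ℝ) ≤ (univ.filter P).card + (univ.filter Q).card)
  congr

theorem fr_le_one (P : Y → Prop) : fr P ≤ 1 := by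
  classical
  unfold fr
  apply div_le_one_of_le₀ _ (Nat.cast_nonneg _)
  exact_mod_cast card_filter_le _ _

theorem fr_false : fr (fun _ : Y => False) = 0 := by
  classical
  unfold fr
  simp

theorem fr_not [Nonempty Y] (P : Y → Prop) : fr (fun y => ¬ P y) = 1 - fr P := by
  classical
  unfold fr
  have h : (0 : ℝ) < Fintype.card Y := by exact_mod_cast Fintype.card_pos
  have h3 : Disjoint (univ.filter P) (univ.filter fun y => ¬ P y) := by
    rw [Finset.disjoint_left]
    intro y hy hy'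
    rw [mem_filter] at hy hy'
    exact hy'.2 hy.2
  have h4 : univ.filter P ∪ (univ.filter fun y => ¬ P y) = univ := by
    ext y
    rw [mem_union, mem_filter, mem_filter]
    simp [em]
  have h2 := card_union_of_disjoint h3
  rw [h4, card_univ] at h2
  rw [eq_sub_iff_add_eq, ← add_div, div_eq_one_iff_eq h.ne', h2]
  push_cast
  rw [add_comm]
  congr

theorem fr_perm (σ : Equiv.Perm Y) (P : Y → Prop) : fr (fun y => P (σ y)) = fr P := by
  classical
  unfold fr
  congr 2
  apply card_bij (fun y _ => σ y)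
  · intro y hy
    simpa using hy
  · intro a _ b _ h
    exact σ.injective h
  · intro b hb
    exact ⟨σ.symm b, by simpa using hb, by simp⟩

theorem fr_prod [Nonempty T] (e : Y ≃ Z × T) (P : Z → Prop) : fr (fun y => P (e y).1) = fr P := by
  classical
  unfold fr
  have h1 : (univ.filter fun y => P (e y).1).card = (univ.filter P).card * Fintype.card T := by
    rw [← Finset.card_univ (α := T), ← card_product]
    apply card_bij (fun y _ => e y)
    · intro y hy
      simpa using hy
    · intro a _ b _ h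
      exact e.injective h
    · intro b hb
      exact ⟨e.symm b, by simpa using hb, by simp⟩
  have h2 : Fintype.card Y = Fintype.card Z * Fintype.card T := by
    rw [Fintype.card_congr e, Fintype.card_prod]
  rw [h1, h2]
  have hT : (0 : ℝ) < Fintype.card T := by exact_mod_cast Fintype.card_pos
  push_cast
  rw [mul_div_mul_right _ _ hT.ne']

/-- the proportion of the points moved by a permutation -/
noncomputable def mv (σ : Equiv.Perm Y) : ℝ := fr fun y => σ y ≠ y

theorem mv_nonneg (σ : Equiv.Perm Y) : 0 ≤ mv σ := fr_nonneg _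

theorem mv_one : mv (1 : Equiv.Perm Y) = 0 := by
  unfold mv
  simp only [Equiv.Perm.coe_one, id_eq, ne_eq, not_true_eq_false]
  exact fr_false

theorem mv_inv (σ : Equiv.Perm Y) : mv σ⁻¹ = mv σ := by
  unfold mv
  rw [← fr_perm σ fun y => σ⁻¹ y ≠ y]
  congr 1
  funext y
  rw [eq_iff_iff, ne_eq, ne_eq, Equiv.Perm.inv_eq_iff_eq]
  exact ⟨fun h h' => h (by rw [h', h']), fun h h' => h (σ.injective h').symm⟩

theorem mv_mul_le (σ τ : Equiv.Perm Y) : mv (σ * τ) ≤ mv σ + mv τ := by
  have h : mv σ = fr fun y => σ (τ y) ≠ τ y := (fr_perm τ fun y => σ y ≠ y).symm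
  rw [h]
  unfold mv
  refine le_trans (fr_mono ?_) (fr_or_le _ _)
  intro y hy
  by_contra hc
  push Not at hc
  exact hy (by rw [Equiv.Perm.mul_apply, hc.1, hc.2])

theorem mv_conj (σ τ : Equiv.Perm Y) : mv (τ * σ * τ⁻¹) = mv σ := by
  unfold mv
  rw [← fr_perm τ fun y => (τ * σ * τ⁻¹) y ≠ y]
  congr 1
  funext y
  simp

theorem mv_mul_ge (σ τ : Equiv.Perm Y) : mv σ - mv τ ≤ mv (σ * τ) := by
  have h := mv_mul_le (σ * τ) τ⁻¹
  rw [mul_inv_cancel_right, mv_inv] at h
  linarith

theorem mv_inv_mul (σ τ : Equiv.Perm Y) : mv (σ⁻¹ * τ) = fr fun y => σ y ≠ τ y := by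
  unfold mv
  congr 1
  funext y
  rw [Equiv.Perm.mul_apply, ne_eq, Equiv.Perm.inv_eq_iff_eq, eq_iff_iff]
  exact ⟨fun h h' => h h'.symm, fun h h' => h h'.symm⟩

end fr

section Lim

variable {Λ : Type u} (l : Filter Λ) (Ω : Λ → Type v) [∀ i, Fintype (Ω i)]

/-- the sequences of permutations which move a proportion of the points tending to zero -/
def nullSub : Subgroup (∀ i, Equiv.Perm (Ω i)) where
  carrier := {π | Tendsto (fun i => mv (π i)) l (𝓝 0)}
  one_mem' := by
    change Tendsto (fun i => mv (1 : Equiv.Perm (Ω i))) l (𝓝 0)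
    simp only [mv_one]
    exact tendsto_const_nhds
  mul_mem' := by
    intro π ρ hπ hρ
    change Tendsto (fun i => mv (π i * ρ i)) l (𝓝 0)
    have h := Tendsto.add (hπ : Tendsto (fun i => mv (π i)) l (𝓝 0))
      (hρ : Tendsto (fun i => mv (ρ i)) l (𝓝 0))
    rw [add_zero] at h
    exact squeeze_zero (fun i => mv_nonneg _) (fun i => mv_mul_le _ _) h
  inv_mem' := by
    intro π hπ
    change Tendsto (fun i => mv (π i)⁻¹) l (𝓝 0)
    simp only [mv_inv]
    exact hπ

theorem mem_nullSub (π : ∀ i, Equiv.Perm (Ω i)) :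
    π ∈ nullSub l Ω ↔ Tendsto (fun i => mv (π i)) l (𝓝 0) := Iff.rfl

instance : (nullSub l Ω).Normal := by
  refine ⟨fun π hπ ρ => ?_⟩
  rw [mem_nullSub] at hπ ⊢
  simp only [Pi.mul_apply, Pi.inv_apply, mv_conj]
  exact hπ

/-- the limit group -/
def Lim : Type (max u v) := (∀ i, Equiv.Perm (Ω i)) ⧸ nullSub l Ω

noncomputable instance : Group (Lim l Ω) :=
  inferInstanceAs (Group ((∀ i, Equiv.Perm (Ω i)) ⧸ nullSub l Ω))

/-- the class of a sequence of permutations -/
noncomputable def cls : (∀ i, Equiv.Perm (Ω i)) →* Lim l Ω := QuotientGroup.mk' (nullSub l Ω)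

variable {l Ω}

theorem cls_surjective : Function.Surjective (cls l Ω) := QuotientGroup.mk'_surjective _

theorem cls_eq_iff (π ρ : ∀ i, Equiv.Perm (Ω i)) :
    cls l Ω π = cls l Ω ρ ↔ Tendsto (fun i => fr fun y => π i y ≠ ρ i y) l (𝓝 0) := by
  refine Iff.trans (QuotientGroup.eq (s := nullSub l Ω)) ?_
  rw [mem_nullSub]
  simp only [Pi.mul_apply, Pi.inv_apply, mv_inv_mul]

end Lim

/-- soficity by homomorphisms to limits of finite symmetric groups, one element at a time -/
theorem isSofic_of_lim {G : Type w} [Group G]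
    (h : ∀ g : G, g ≠ 1 → ∃ (Λ : Type u) (l : Filter Λ) (_ : l.NeBot) (Ω : Λ → Type v)
      (_ : ∀ i, Fintype (Ω i)) (L : G →* Lim l Ω) (P : ∀ i, Equiv.Perm (Ω i)) (δ : ℝ), 0 < δ ∧
      cls l Ω P = L g ∧ ∀ᶠ i in l, δ ≤ mv (P i)) : IsSofic G := by
  classical
  refine isSofic_of_weighted.{v, w} G ?_
  intro A h1 g hg hg1 ε hε
  obtain ⟨Λ, l, hl, Ω, hΩ, L, P, δ, hδ, hP, hdisp⟩ := h g hg1
  have hrep : ∀ a : G, ∃ π : ∀ i, Equiv.Perm (Ω i), cls l Ω π = L a ∧
      (a = 1 → π = 1) ∧ (a = g → π = P) := by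
    intro a
    by_cases ha : a = 1
    · refine ⟨1, ?_, fun _ => rfl, fun h' => absurd (h'.symm.trans ha) hg1⟩
      rw [ha, map_one, map_one]
    · by_cases hag : a = g
      · exact ⟨P, by rw [hag, hP], fun h' => absurd h' ha, fun _ => rfl⟩
      · obtain ⟨π, hπ⟩ := cls_surjective (L a)
        exact ⟨π, hπ, fun h' => absurd h' ha, fun h' => absurd h' hag⟩
  choose Φ hΦ hΦ1 hΦg using hrep
  have herr : ∀ a b : G, Tendsto (fun i => fr fun y => Φ (a * b) i y ≠ Φ a i (Φ b i y)) l
      (𝓝 0) := by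
    intro a b
    have h2 : cls l Ω (Φ (a * b)) = cls l Ω (Φ a * Φ b) := by
      rw [map_mul, hΦ, hΦ, hΦ, map_mul]
    have h3 := (cls_eq_iff (Φ (a * b)) (Φ a * Φ b)).1 h2
    simpa only [Pi.mul_apply, Equiv.Perm.mul_apply] using h3
  have hev : ∀ᶠ i in l, ∀ a ∈ A, ∀ b ∈ A,
      (fr fun y => Φ (a * b) i y ≠ Φ a i (Φ b i y)) ≤ ε * δ := by
    rw [eventually_all_finset]
    intro a _
    rw [eventually_all_finset]
    intro b _
    exact ((herr a b).eventually (gt_mem_nhds (show (0 : ℝ) < ε * δ by positivity))).mono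
      fun i hi => hi.le
  obtain ⟨i, hi1, hi2⟩ := (hev.and hdisp).exists
  rw [← hΦg g rfl] at hi2
  have hne : Nonempty (Ω i) := by
    by_contra hc
    rw [not_nonempty_iff] at hc
    have : mv (Φ g i) = 0 := by
      unfold mv fr
      simp
    linarith
  have hn0 : (0 : ℝ) < Fintype.card (Ω i) := by exact_mod_cast Fintype.card_pos
  let f : Ω i →₀ ℝ := Finsupp.onFinset univ (fun _ => 1) (fun _ _ => mem_univ _)
  have hf : ∀ y, f y = 1 := fun y => rfl
  have hsupp : f.support = univ := by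
    ext y
    simp [Finsupp.mem_support_iff, hf]
  have hmass : ∀ Q : Ω i → Prop, mass f Q = fr Q * Fintype.card (Ω i) := by
    intro Q
    unfold mass fr
    rw [hsupp, div_mul_cancel₀ _ hn0.ne']
    simp only [hf]
    rw [sum_const, nsmul_eq_mul, one_pow, mul_one]
  have hbig : δ * Fintype.card (Ω i) ≤ mass f (fun y => Φ g i y ≠ y) := by
    rw [hmass]
    exact mul_le_mul_of_nonneg_right hi2 hn0.le
  refine ⟨Ω i, fun a => Φ a i, f, congrFun (hΦ1 1 rfl) i, lt_of_lt_of_le (by positivity) hbig,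
    ?_, ?_⟩
  · intro a _
    have : energy f (Φ a i) = 0 := by
      unfold energy
      simp [hf]
    rw [this]
    have : (0 : ℝ) ≤ mass f (fun y => Φ g i y ≠ y) := le_trans (by positivity) hbig
    positivity
  · intro a ha b hb _
    rw [hmass]
    calc (fr fun y => Φ (a * b) i y ≠ Φ a i (Φ b i y)) * Fintype.card (Ω i)
        ≤ ε * δ * Fintype.card (Ω i) := mul_le_mul_of_nonneg_right (hi1 a ha b hb) hn0.le
      _ = ε * (δ * Fintype.card (Ω i)) := by ring
      _ ≤ _ := mul_le_mul_of_nonneg_left hbig hε.le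

/-- a sofic group has sofic representations along a filter -/
theorem exists_rep {A : Type u} [Group A] (hA : IsSofic A) :
    ∃ (Λ : Type u) (l : Filter Λ) (_ : l.NeBot) (n : Λ → ℕ) (_ : ∀ i, 1 ≤ n i)
      (ψ : ∀ i, A → Equiv.Perm (Fin (n i))),
      (∀ a b, Tendsto (fun i => fr fun y => ψ i (a * b) y ≠ ψ i a (ψ i b y)) l (𝓝 0)) ∧
      ∀ a, a ≠ 1 → Tendsto (fun i => fr fun y => ψ i a y = y) l (𝓝 0) := by
  classical
  have hex : ∀ i : Finset A × ℕ, ∃ n : ℕ, 1 ≤ n ∧ ∃ φ : A → Equiv.Perm (Fin n),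
      φ 1 = 1 ∧
      (∀ a ∈ insert 1 i.1, ∀ b ∈ insert 1 i.1, a * b ∈ insert 1 i.1 →
        hamm (φ (a * b)) (φ a * φ b) < 1 / ((i.2 : ℝ) + 1)) ∧
      ∀ a ∈ insert 1 i.1, a ≠ 1 → 1 - 1 / ((i.2 : ℝ) + 1) ≤ hamm (φ a) 1 := by
    intro i
    exact hA (insert 1 i.1) (mem_insert_self _ _) _ (by positivity)
  choose n hn ψ h1 h2 h3 using hex
  have hfr : ∀ (i : Finset A × ℕ) (σ τ : Equiv.Perm (Fin (n i))), hamm σ τ = fr fun y => σ y ≠ τ y := by
    intro i σ τ
    unfold hamm fr
    rw [Fintype.card_fin]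
    congr
  have hlim : Tendsto (fun i : Finset A × ℕ => 1 / ((i.2 : ℝ) + 1)) atTop (𝓝 0) := by
    have h4 : Tendsto (fun i : Finset A × ℕ => i.2) atTop atTop := tendsto_atTop_atTop.2
      fun b => ⟨(∅, b), fun a ha => ha.2⟩
    exact tendsto_one_div_add_atTop_nhds_zero_nat.comp h4
  have hmem : ∀ a : A, ∀ᶠ i : Finset A × ℕ in atTop, a ∈ i.1 := by
    intro a
    filter_upwards [eventually_ge_atTop (({a}, 0) : Finset A × ℕ)] with i hi
    exact hi.1 (mem_singleton_self a)
  refine ⟨Finset A × ℕ, atTop, inferInstance, n, hn, ψ, ?_, ?_⟩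
  · intro a b
    refine squeeze_zero' (Eventually.of_forall fun i => fr_nonneg _) ?_ hlim
    filter_upwards [hmem a, hmem b, hmem (a * b)] with i ha hb hab
    have := h2 i a (mem_insert_of_mem ha) b (mem_insert_of_mem hb) (mem_insert_of_mem hab)
    rw [hfr] at this
    exact this.le
  · intro a ha1
    refine squeeze_zero' (Eventually.of_forall fun i => fr_nonneg _) ?_ hlim
    filter_upwards [hmem a] with i ha
    have := h3 i a (mem_insert_of_mem ha) ha1
    rw [hfr] at this
    have hne : Nonempty (Fin (n i)) := ⟨⟨0, hn i⟩⟩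
    have h5 := fr_not (Y := Fin (n i)) (fun y => ψ i a y = y)
    change 1 - _ ≤ fr (fun y => ¬ ψ i a y = y) at this
    linarith

end Pool.Agent.E8helper54.SG
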