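import Pool.Agent.H13.L.Rb67.E8helper54.SG.Level

/-!
The permutations of `(W → Y) × Fin n × Fin m` defined by the elements of the base group and by the
stable letters, the relations between them, and the path of a point under a word.
-/

set_option autoImplicit false

namespace Pool.Agent.E8helper54.SG

open Finset Equiv

universe u v

variable {β I : Type u} {D : I → Subgroup (FreeGroup β)} {n : ℕ} (m : ℕ) (L : Lev D n)
variable {A : Type v} [Group A] (fA : A →* FreeGroup β) (τ : I → FreeGroup β)
  (ψ : A → Perm (Fin n))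

/-- the finite model -/
abbrev Om (m : ℕ) (L : Lev D n) : Type u := (L.W → Y n m) × (Fin n × Fin m)

/-- an element of the base group -/
noncomputable def PA (a : A) : Perm (Om m L) :=
  Equiv.prodCongr (Th m L (fA a)) (Equiv.prodCongr (ψ a) (Equiv.refl _))

theorem PA_apply (a : A) (ω : Om m L) :
    PA m L fA ψ a ω = (Th m L (fA a) ω.1, (ψ a ω.2.1, ω.2.2)) := rfl

/-- a stable letter -/
noncomputable def PT (i : I) : Perm (Om m L) where
  toFun ω := (Th m L (τ i) ω.1, ((val m L i 1 ω.1).1 ω.2.1, (val m L i 1 ω.1).2 ω.2.1 ω.2.2))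
  invFun ω := ((Th m L (τ i))⁻¹ ω.1, ((val m L i 1 ((Th m L (τ i))⁻¹ ω.1)).1⁻¹ ω.2.1,
    ((val m L i 1 ((Th m L (τ i))⁻¹ ω.1)).2
      ((val m L i 1 ((Th m L (τ i))⁻¹ ω.1)).1⁻¹ ω.2.1))⁻¹ ω.2.2))
  left_inv ω := by
    rcases ω with ⟨x, p, k⟩
    simp
  right_inv ω := by
    rcases ω with ⟨x, p, k⟩
    simp

theorem PT_apply (i : I) (ω : Om m L) : PT m L τ i ω =
    (Th m L (τ i) ω.1, ((val m L i 1 ω.1).1 ω.2.1, (val m L i 1 ω.1).2 ω.2.1 ω.2.2)) := rfl

theorem PT_inv_apply (i : I) (ω : Om m L) : (PT m L τ i)⁻¹ ω =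
    ((Th m L (τ i))⁻¹ ω.1, ((val m L i 1 ((Th m L (τ i))⁻¹ ω.1)).1⁻¹ ω.2.1,
    ((val m L i 1 ((Th m L (τ i))⁻¹ ω.1)).2
      ((val m L i 1 ((Th m L (τ i))⁻¹ ω.1)).1⁻¹ ω.2.1))⁻¹ ω.2.2)) := rfl

/-- the relations hold except where the exact action of the edge group differs from the given
one -/
theorem relation (i : I) (d : D i) (a b : A) (ha : fA a = d) (hb : fA b = τ i * d * (τ i)⁻¹) :
    ∃ N : Finset (Idx D), ∀ {n : ℕ} (m : ℕ) (L : Lev D n) (ψ : A → Perm (Fin n)), N ⊆ L.W →
      ∀ ω : Om m L, L.p i d ω.2.1 = ψ a ω.2.1 →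
        L.r i d (PT m L τ i ω).2.1 = ψ b (PT m L τ i ω).2.1 →
        PT m L τ i (PA m L fA ψ a ω) = PA m L fA ψ b (PT m L τ i ω) := by
  obtain ⟨N, hN⟩ := val_Th (D := D) (d : FreeGroup β) (d : FreeGroup β)⁻¹ i
  refine ⟨insert (cs D i 1) N, fun {n} m L ψ hL ω h1 h2 => ?_⟩
  have hN' := hN m L ((subset_insert _ _).trans hL) ω.1
  have h3 : cs D i 1 ∈ L.W := hL (mem_insert_self _ _)
  have h4 : val m L i 1 (Th m L d ω.1) = th m L i d (val m L i 1 ω.1) := by
    have h5 := val_mul m L h3 (inv_mem d.2) ω.1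
    rw [one_mul, dd_inv d.2, dd_coe, map_inv, inv_inv] at h5
    rw [mul_inv_cancel] at hN'
    rw [hN', h5]
  rw [PT_apply] at h2
  rw [PA_apply, PT_apply, PT_apply, PA_apply]
  simp only at h2 ⊢
  rw [ha, hb, h4, th_apply, ← h1, ← h2]
  refine Prod.ext ?_ (Prod.ext ?_ ?_)
  · simp only [← Perm.mul_apply, ← map_mul]
    congr 2
    group
  · simp
  · simp

/-- the value of a word in the free group -/
noncomputable def evalQ : List (I × Bool × A) → FreeGroup β
  | [] => 1
  | (i, e, a) :: w => (if e then τ i else (τ i)⁻¹) * fA a * evalQ w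

/-- the value of a word in the permutations of the model -/
noncomputable def evalP : List (I × Bool × A) → Perm (Om m L)
  | [] => 1
  | (i, e, a) :: w => (if e then PT m L τ i else (PT m L τ i)⁻¹) * PA m L fA ψ a * evalP w

/-- the position in the free group at the origin of the edge -/
noncomputable def src (i : I) (e : Bool) (a : A) (w : List (I × Bool × A)) : FreeGroup β :=
  if e then fA a * evalQ fA τ w else (τ i)⁻¹ * fA a * evalQ fA τ w

/-- the path of a point and the list of the symbols met on the way -/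
noncomputable def path (x : L.W → Y n m) (p : Fin n) :
    List (I × Bool × A) → Fin n × List ((Idx D × Fin n) × Bool)
  | [] => (p, [])
  | (i, e, a) :: w =>
    ((if e then (val m L i (src fA τ i e a w)⁻¹ x).1 (ψ a (path x p w).1)
        else (val m L i (src fA τ i e a w)⁻¹ x).1⁻¹ (ψ a (path x p w).1)),
      ((cs D i (src fA τ i e a w)⁻¹,
        L.p i (dd D i ((rep (cs D i (src fA τ i e a w)⁻¹))⁻¹ * (src fA τ i e a w)⁻¹))
          (if e then ψ a (path x p w).1
            else (val m L i (src fA τ i e a w)⁻¹ x).1⁻¹ (ψ a (path x p w).1))), e) ::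
        (path x p w).2)

open Classical in
/-- the label of a symbol -/
noncomputable def lb (x : L.W → Y n m) (s : Idx D × Fin n) : Perm (Fin m) :=
  if h : s.1 ∈ L.W then (x ⟨s.1, h⟩).2 s.2 else 1

/-- the label of a list of symbols, for a general labelling -/
def lab {S K : Type*} [Group K] (z : S → K) (l : List (S × Bool)) : K :=
  (l.map fun s => if s.2 then z s.1 else (z s.1)⁻¹).prod

theorem lab_nil {S K : Type*} [Group K] (z : S → K) : lab z [] = 1 := rfl

theorem lab_cons {S K : Type*} [Group K] (z : S → K) (s : S × Bool) (l : List (S × Bool)) :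
    lab z (s :: l) = (if s.2 then z s.1 else (z s.1)⁻¹) * lab z l := by
  unfold lab
  rw [List.map_cons, List.prod_cons]

theorem lab_congr {S K : Type*} [Group K] (z z' : S → K) (l : List (S × Bool))
    (h : ∀ s ∈ l, z s.1 = z' s.1) : lab z l = lab z' l := by
  unfold lab
  congr 1
  apply List.map_congr_left
  intro s hs
  rw [h s hs]

theorem val_snd (x : L.W → Y n m) (i : I) (q : FreeGroup β) (v : Fin n) :
    (val m L i q x).2 v =
      lb m L x (cs D i q, L.p i (dd D i ((rep (cs D i q))⁻¹ * q)) v) := by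
  unfold val lb
  by_cases h : cs D i q ∈ L.W
  · rw [dif_pos h, dif_pos h, th_inv_apply]
  · rw [dif_neg h, dif_neg h]

/-- **The path formula.** -/
theorem evalP_apply (w : List (I × Bool × A)) : ∃ N : Finset (Idx D), ∀ {n : ℕ} (m : ℕ)
    (L : Lev D n) (ψ : A → Perm (Fin n)), N ⊆ L.W → ∀ (x : L.W → Y n m) (p : Fin n) (k : Fin m),
      evalP m L fA τ ψ w (x, (p, k)) = (Th m L (evalQ fA τ w) x,
        ((path m L fA τ ψ x p w).1, lab (lb m L x) (path m L fA τ ψ x p w).2 k)) := by
  induction w with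
  | nil =>
    refine ⟨∅, fun {n} m L ψ _ x p k => ?_⟩
    unfold evalP evalQ path
    rw [map_one, lab_nil]
    rfl
  | cons a w ih =>
    obtain ⟨N, hN⟩ := ih
    rcases a with ⟨i, e, a⟩
    obtain ⟨N', hN'⟩ := val_Th (D := D) (src fA τ i e a w) (src fA τ i e a w)⁻¹ i
    refine ⟨N ∪ N', fun {n} m L ψ hL x p k => ?_⟩
    have h1 := hN m L ψ (subset_union_left.trans hL) x p k
    have h2 := hN' m L (subset_union_right.trans hL) x
    rw [mul_inv_cancel] at h2
    unfold evalP evalQ path
    rw [Perm.mul_apply, Perm.mul_apply, h1, PA_apply, lab_cons]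
    cases e with
    | true =>
      simp only [if_true, PT_apply]
      have h3 : Th m L (fA a) (Th m L (evalQ fA τ w) x) = Th m L (src fA τ i true a w) x := by
        rw [← Perm.mul_apply, ← map_mul]
        rfl
      rw [h3, h2]
      refine Prod.ext ?_ (Prod.ext rfl ?_)
      · simp only
        rw [← h3]
        simp only [← Perm.mul_apply, ← map_mul]
        rw [mul_assoc]
      · simp only
        rw [val_snd, Perm.mul_apply]
    | false =>
      simp only [Bool.false_eq_true, if_false, PT_inv_apply]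
      have h3 : (Th m L (τ i))⁻¹ (Th m L (fA a) (Th m L (evalQ fA τ w) x)) =
          Th m L (src fA τ i false a w) x := by
        rw [← map_inv, ← Perm.mul_apply, ← map_mul, ← Perm.mul_apply, ← map_mul]
        rfl
      rw [h3, h2]
      refine Prod.ext ?_ (Prod.ext rfl ?_)
      · simp only
        rfl
      · simp only
        rw [val_snd, Perm.mul_apply]

/-- all symbols lie over the window -/
theorem path_mem (w : List (I × Bool × A)) : ∃ N : Finset (Idx D), ∀ {n : ℕ} (m : ℕ)
    (L : Lev D n) (ψ : A → Perm (Fin n)), N ⊆ L.W → ∀ (x : L.W → Y n m) (p : Fin n),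
      ∀ s ∈ (path m L fA τ ψ x p w).2, s.1.1 ∈ L.W := by
  induction w with
  | nil =>
    refine ⟨∅, fun {n} m L ψ _ x p s hs => ?_⟩
    unfold path at hs
    simp at hs
  | cons a w ih =>
    obtain ⟨N, hN⟩ := ih
    rcases a with ⟨i, e, a⟩
    refine ⟨insert (cs D i (src fA τ i e a w)⁻¹) N, fun {n} m L ψ hL x p s hs => ?_⟩
    unfold path at hs
    rw [List.mem_cons] at hs
    rcases hs with rfl | hs
    · exact hL (mem_insert_self _ _)
    · exact hN m L ψ ((subset_insert _ _).trans hL) x p s hs

theorem path_length (x : L.W → Y n m) (p : Fin n) (w : List (I × Bool × A)) :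
    (path m L fA τ ψ x p w).2.length = w.length := by
  induction w with
  | nil => rfl
  | cons a w ih =>
    rcases a with ⟨i, e, a⟩
    unfold path
    rw [List.length_cons, List.length_cons, ih]

/-- the path depends only on the permutations, not on the labels -/
theorem path_congr (x x' : L.W → Y n m) (h : ∀ w, (x w).1 = (x' w).1) (p : Fin n)
    (w : List (I × Bool × A)) : path m L fA τ ψ x p w = path m L fA τ ψ x' p w := by
  have hval : ∀ i q, (val m L i q x).1 = (val m L i q x').1 := by
    intro i q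
    unfold val
    by_cases h1 : cs D i q ∈ L.W
    · rw [dif_pos h1, dif_pos h1, th_inv_apply, th_inv_apply]
      simp only
      rw [h]
    · rw [dif_neg h1, dif_neg h1]
  induction w with
  | nil => rfl
  | cons a w ih =>
    rcases a with ⟨i, e, a⟩
    unfold path
    rw [ih, hval]

/-- the bad set of a letter followed by an inverse letter -/
def Bad (i : I) (e : Bool) (a : A) (v : Fin n) : Prop :=
  if e then ∃ d : D i, fA a = d ∧ L.p i d v = ψ a v
  else ∃ d : D i, fA a = τ i * d * (τ i)⁻¹ ∧ L.r i d v = ψ a v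

/-- **The key lemma.**  Two consecutive symbols with opposite signs are different, unless the point
in between is bad. -/
theorem symbols_ne (i : I) (e : Bool) (a a' : A) (w : List (I × Bool × A))
    (x : L.W → Y n m) (p : Fin n)
    (hW : cs D i (src fA τ i (!e) a' w)⁻¹ ∈ L.W)
    (h : cs D i (src fA τ i e a ((i, !e, a') :: w))⁻¹ = cs D i (src fA τ i (!e) a' w)⁻¹)
    (h' : L.p i (dd D i ((rep (cs D i (src fA τ i e a ((i, !e, a') :: w))⁻¹))⁻¹ *
        (src fA τ i e a ((i, !e, a') :: w))⁻¹))
          (if e then ψ a (path m L fA τ ψ x p ((i, !e, a') :: w)).1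
            else (val m L i (src fA τ i e a ((i, !e, a') :: w))⁻¹ x).1⁻¹
              (ψ a (path m L fA τ ψ x p ((i, !e, a') :: w)).1)) =
        L.p i (dd D i ((rep (cs D i (src fA τ i (!e) a' w)⁻¹))⁻¹ * (src fA τ i (!e) a' w)⁻¹))
          (if !e then ψ a' (path m L fA τ ψ x p w).1
            else (val m L i (src fA τ i (!e) a' w)⁻¹ x).1⁻¹ (ψ a' (path m L fA τ ψ x p w).1))) :
    Bad L fA τ ψ i e a (path m L fA τ ψ x p ((i, !e, a') :: w)).1 := by
  set q' := (src fA τ i (!e) a' w)⁻¹ with hq'
  set q := (src fA τ i e a ((i, !e, a') :: w))⁻¹ with hq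
  have hd : q'⁻¹ * q ∈ D i := ((cs_eq_iff q' q).1 h.symm).2
  -- the element `d`
  set d : D i := ⟨(q'⁻¹ * q)⁻¹, inv_mem hd⟩ with hdd
  have hqd : q = q' * (d : FreeGroup β)⁻¹ := by
    rw [hdd]
    group
  have hval : val m L i q x = th m L i d (val m L i q' x) := by
    rw [hqd, val_mul m L hW (inv_mem d.2), dd_inv d.2, dd_coe, map_inv, inv_inv]
  have hdm : dd D i ((rep (cs D i q))⁻¹ * q) = dd D i ((rep (cs D i q'))⁻¹ * q') * d⁻¹ := by
    rw [h, hqd, ← mul_assoc, dd_mul (rep_mem i q') (inv_mem d.2), dd_inv d.2, dd_coe]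
  rw [hdm, map_mul, Perm.mul_apply] at h'
  have h2 := (L.p i (dd D i ((rep (cs D i q'))⁻¹ * q'))).injective h'
  unfold Bad
  cases e with
  | true =>
    simp only [if_true, Bool.not_true, Bool.false_eq_true, if_false] at h2 hq hq' ⊢
    refine ⟨d, ?_, ?_⟩
    · rw [hdd]
      simp only
      rw [hq, hq']
      unfold src
      simp only [if_true, Bool.false_eq_true, if_false]
      conv_rhs => rw [evalQ]
      simp only [Bool.false_eq_true, if_false]
      group
    · rw [map_inv, Perm.inv_eq_iff_eq] at h2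
      rw [h2]
      congr 1
  | false =>
    simp only [if_true, Bool.not_false, Bool.false_eq_true, if_false] at h2 hq hq' ⊢
    refine ⟨d, ?_, ?_⟩
    · rw [hdd]
      simp only
      rw [hq, hq']
      unfold src
      simp only [if_true, Bool.false_eq_true, if_false]
      conv_rhs => rw [evalQ]
      simp only [if_true]
      group
    · have h3 : (path m L fA τ ψ x p ((i, true, a') :: w)).1 =
          (val m L i q' x).1 (ψ a' (path m L fA τ ψ x p w).1) := by
        conv_lhs => rw [path]
        simp only [if_true]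
        rfl
      have h4 : (L.r i d)⁻¹ (ψ a (path m L fA τ ψ x p ((i, true, a') :: w)).1) =
          (val m L i q' x).1 (ψ a' (path m L fA τ ψ x p w).1) := by
        rw [← h2, hval, th_apply]
        simp
      rw [← h3, Perm.inv_eq_iff_eq] at h4
      exact h4.symm

end Pool.Agent.E8helper54.SG
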